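import Mathlib
import Pool.Agent.Helper259.HtExt

set_option autoImplicit false

/-!
The number of the elements of an ideal in a box which contains a basis of the field: an upper bound
with the discriminant.
-/

namespace Pool.Agent.N752.SU

open NumberField Module Finset

variable {K : Type} [Field K] [NumberField K]

open Classical in
/-- the determinant in an integral basis -/
noncomputable def dt (b : Free.ChooseBasisIndex ℤ (𝓞 K) → 𝓞 K) : ℤ :=
  (RingOfIntegers.basis K).det b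

open Classical in
lemma dt_sq (b : Free.ChooseBasisIndex ℤ (𝓞 K) → 𝓞 K) :
    Algebra.discr ℚ (fun i => (b i : K)) = (dt b : ℚ) ^ 2 * (discr K : ℚ) := by
  have h := Algebra.discr_of_matrix_vecMul (A := ℚ) (integralBasis K)
    (((RingOfIntegers.basis K).toMatrix b).map (Int.cast : ℤ → ℚ))
  have e : Matrix.vecMul (integralBasis K : Free.ChooseBasisIndex ℤ (𝓞 K) → K)
      ((((RingOfIntegers.basis K).toMatrix b).map (Int.cast : ℤ → ℚ)).map (algebraMap ℚ K)) =
      fun i => (b i : K) := by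
    funext i
    have h1 := (RingOfIntegers.basis K).sum_repr (b i)
    have h2 := congrArg (algebraMap (𝓞 K) K) h1
    rw [map_sum] at h2
    show ∑ k, _ = _
    refine Eq.trans ?_ h2
    refine Finset.sum_congr rfl fun k _ => ?_
    show (integralBasis K) k * algebraMap ℚ K (((RingOfIntegers.basis K).repr (b i) k : ℤ) : ℚ) = _
    rw [integralBasis_apply, zsmul_eq_mul, map_mul, map_intCast, map_intCast, mul_comm]
  rw [e] at h
  rw [h, ← coe_discr]
  congr 2
  unfold dt
  rw [Basis.det_apply]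
  exact (Int.cast_det _).symm

lemma li_of_dt {b : Free.ChooseBasisIndex ℤ (𝓞 K) → 𝓞 K} (h : dt b ≠ 0) :
    LinearIndependent ℚ (fun i => (b i : K)) := by
  classical
  by_contra hn
  have h1 := Algebra.discr_zero_of_not_linearIndependent ℚ hn
  rw [dt_sq] at h1
  have h2 : (discr K : ℚ) ≠ 0 := by exact_mod_cast discr_ne_zero K
  have h3 : (dt b : ℚ) ≠ 0 := by exact_mod_cast h
  exact mul_ne_zero (pow_ne_zero 2 h3) h2 h1

lemma dt_ne_zero {b : Free.ChooseBasisIndex ℤ (𝓞 K) → 𝓞 K}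
    (h : LinearIndependent ℚ (fun i => (b i : K))) : dt b ≠ 0 := by
  classical
  have hcard : Fintype.card (Free.ChooseBasisIndex ℤ (𝓞 K)) = finrank ℚ K := by
    rw [← RingOfIntegers.rank K, finrank_eq_card_chooseBasisIndex]
  have h1 := Algebra.discr_not_zero_of_basis ℚ
    (basisOfLinearIndependentOfCardEqFinrank' _ h hcard)
  rw [coe_basisOfLinearIndependentOfCardEqFinrank', dt_sq] at h1
  intro h2
  apply h1
  rw [h2]
  simp

/-- the determinant of the matrix of the conjugates -/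
lemma dt_le (b : Free.ChooseBasisIndex ℤ (𝓞 K) → 𝓞 K) (T : InfinitePlace K → ℝ)
    (hb : ∀ i v, v (b i : K) ≤ T v) :
    |(dt b : ℝ)| * √|(discr K : ℝ)| ≤
      (finrank ℚ K).factorial * ∏ v, T v ^ v.mult := by
  classical
  have hcard : Fintype.card (Free.ChooseBasisIndex ℤ (𝓞 K)) = finrank ℚ K := by
    rw [← RingOfIntegers.rank K, finrank_eq_card_chooseBasisIndex]
  have hcard' : Fintype.card (Free.ChooseBasisIndex ℤ (𝓞 K)) = Fintype.card (K →ₐ[ℚ] ℂ) := by
    rw [hcard, AlgHom.card]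
  let e : Free.ChooseBasisIndex ℤ (𝓞 K) ≃ (K →ₐ[ℚ] ℂ) := Fintype.equivOfCardEq hcard'
  have h := Algebra.discr_eq_det_embeddingsMatrixReindex_pow_two ℚ ℂ (fun i => (b i : K)) e
  rw [dt_sq] at h
  set M := Algebra.embeddingsMatrixReindex ℚ ℂ (fun i => (b i : K)) e with hM
  have h1 : ‖M.det‖ = |(dt b : ℝ)| * √|(discr K : ℝ)| := by
    have h2 : ‖M.det‖ ^ 2 = (|(dt b : ℝ)| * √|(discr K : ℝ)|) ^ 2 := by
      rw [← norm_pow, ← h, mul_pow, Real.sq_sqrt (abs_nonneg _), sq_abs]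
      have e1 : algebraMap ℚ ℂ ((dt b : ℚ) ^ 2 * (discr K : ℚ)) =
          (((dt b : ℝ) ^ 2 * (discr K : ℝ) : ℝ) : ℂ) := by
        rw [eq_ratCast]
        push_cast
        rfl
      rw [e1, Complex.norm_real, Real.norm_eq_abs, abs_mul, abs_of_nonneg (sq_nonneg (dt b : ℝ))]
    have h3 : 0 ≤ |(dt b : ℝ)| * √|(discr K : ℝ)| := by positivity
    exact (pow_left_inj₀ (norm_nonneg _) h3 two_ne_zero).1 h2
  rw [← h1, Matrix.det_apply]
  refine (norm_sum_le _ _).trans ?_
  have hT : ∏ v, T v ^ v.mult = ∏ j, T (InfinitePlace.mk (e j).toRingHom) := by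
    rw [Pool.Agent.Helper259.HtExt.prod_infinitePlace_pow_mult K T]
    refine (Fintype.prod_bijective (fun j => (e j).toRingHom) ?_ _ _ fun j => rfl).symm
    refine Function.Bijective.comp (g := fun f : K →ₐ[ℚ] ℂ => f.toRingHom) ?_ e.bijective
    exact (RingHom.equivRatAlgHom (R := K) (S := ℂ)).symm.bijective
  have hterm : ∀ σ ∈ (Finset.univ : Finset (Equiv.Perm (Free.ChooseBasisIndex ℤ (𝓞 K)))),
      ‖Equiv.Perm.sign σ • ∏ i, M (σ i) i‖ ≤ ∏ v, T v ^ v.mult := by
    intro σ _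
    have h4 : ‖Equiv.Perm.sign σ • ∏ i, M (σ i) i‖ = ∏ i, ‖M (σ i) i‖ := by
      rw [Units.smul_def, zsmul_eq_mul, norm_mul, norm_prod]
      rcases Int.units_eq_one_or (Equiv.Perm.sign σ) with h5 | h5 <;> rw [h5] <;> simp
    rw [h4, hT]
    refine Finset.prod_le_prod (fun _ _ => norm_nonneg _) fun i _ => ?_
    have h5 := hb (σ i) (InfinitePlace.mk (e i).toRingHom)
    rw [InfinitePlace.apply] at h5
    exact h5
  refine (Finset.sum_le_card_nsmul _ _ _ hterm).trans (le_of_eq ?_)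
  rw [Finset.card_univ, Fintype.card_perm, hcard, nsmul_eq_mul]

open Classical in
/-- the coefficients of `dt b • y` -/
noncomputable def cf (b : Free.ChooseBasisIndex ℤ (𝓞 K) → 𝓞 K)
    (i : Free.ChooseBasisIndex ℤ (𝓞 K)) : 𝓞 K →ₗ[ℤ] ℤ :=
  (RingOfIntegers.basis K).det.toMultilinearMap.toLinearMap b i

open Classical in
lemma cf_apply (b : Free.ChooseBasisIndex ℤ (𝓞 K) → 𝓞 K) (i : Free.ChooseBasisIndex ℤ (𝓞 K))
    (y : 𝓞 K) : cf b i y = dt (Function.update b i y) := rfl

lemma cf_self (b : Free.ChooseBasisIndex ℤ (𝓞 K) → 𝓞 K) (i : Free.ChooseBasisIndex ℤ (𝓞 K)) :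
    cf b i (b i) = dt b := by
  classical
  rw [cf_apply]
  congr 1
  exact Function.update_eq_self i b

lemma cf_ne (b : Free.ChooseBasisIndex ℤ (𝓞 K) → 𝓞 K) {i j : Free.ChooseBasisIndex ℤ (𝓞 K)}
    (h : i ≠ j) : cf b i (b j) = 0 := by
  classical
  rw [cf_apply]
  exact (RingOfIntegers.basis K).det.map_update_self b h

/-- the elements of a finite subset of an ideal -/
theorem card_le {I : Ideal (𝓞 K)} (hI : I ≠ ⊥) (s : Finset (𝓞 K)) (hs : ∀ y ∈ s, y ∈ I)
    (b : Free.ChooseBasisIndex ℤ (𝓞 K) → 𝓞 K) (hb : ∀ i, b i ∈ s) (hd : dt b ≠ 0)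
    (hmax : ∀ y ∈ s, ∀ i, |cf b i y| ≤ |dt b|) :
    s.card * Ideal.absNorm I ≤ 3 ^ finrank ℚ K * (dt b).natAbs := by
  classical
  have hcard : Fintype.card (Free.ChooseBasisIndex ℤ (𝓞 K)) = finrank ℚ K := by
    rw [← RingOfIntegers.rank K, finrank_eq_card_chooseBasisIndex]
  have hli : LinearIndependent ℤ b := by
    have h1 := (li_of_dt hd).restrict_scalars (R := ℤ)
      (fun x y h => by simpa using h)
    exact LinearIndependent.of_comp (Algebra.linearMap (𝓞 K) K |>.restrictScalars ℤ) h1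
  let L : AddSubgroup (𝓞 K) := (Submodule.span ℤ (Set.range b)).toAddSubgroup
  let bN : Basis (Free.ChooseBasisIndex ℤ (𝓞 K)) ℤ (Submodule.span ℤ (Set.range b)) :=
    Basis.span hli
  have hindex : L.index = (dt b).natAbs := by
    have h1 := Submodule.natAbs_det_basis_change (RingOfIntegers.basis K)
      (Submodule.span ℤ (Set.range b)) bN
    have e : (fun i => ((bN i : Submodule.span ℤ (Set.range b)) : 𝓞 K)) = b := by
      funext i
      exact congrArg Subtype.val (Basis.span_apply hli i)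
    have e2 : ((↑) ∘ bN : Free.ChooseBasisIndex ℤ (𝓞 K) → 𝓞 K) = b := e
    rw [e2] at h1
    exact h1.symm
  have hLI : L ≤ I.toAddSubgroup := by
    intro x hx
    have hx' : x ∈ Submodule.span ℤ (Set.range b) := hx
    have h1 : Submodule.span ℤ (Set.range b) ≤ I.restrictScalars ℤ := by
      rw [Submodule.span_le]
      rintro _ ⟨i, rfl⟩
      exact hs _ (hb i)
    exact h1 hx'
  have hrel := AddSubgroup.relIndex_mul_index hLI
  rw [hindex, ← Ideal.absNorm_eq_index] at hrel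
  have hd' : 0 < |dt b| := abs_pos.2 hd
  have hrel0 : L.relIndex I.toAddSubgroup ≠ 0 := by
    intro h0
    rw [h0, zero_mul] at hrel
    exact hd (Int.natAbs_eq_zero.1 hrel.symm)
  have hfin : Finite (I.toAddSubgroup ⧸ L.addSubgroupOf I.toAddSubgroup) := by
    have h1 : Nat.card (I.toAddSubgroup ⧸ L.addSubgroupOf I.toAddSubgroup) ≠ 0 := hrel0
    exact (Nat.card_ne_zero.1 h1).2
  have hrange : ∀ (y : s) (i : Free.ChooseBasisIndex ℤ (𝓞 K)),
      cf b i (y : 𝓞 K) / |dt b| ∈ Finset.Icc (-1 : ℤ) 1 := by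
    intro y i
    have h1 := abs_le.1 (hmax y y.2 i)
    rw [Finset.mem_Icc]
    refine ⟨?_, ?_⟩
    · rw [Int.le_ediv_iff_mul_le hd']
      linarith [h1.1]
    · refine Int.ediv_le_of_le_mul hd' ?_
      linarith [h1.2]
  let f : s → (I.toAddSubgroup ⧸ L.addSubgroupOf I.toAddSubgroup) ×
      (Free.ChooseBasisIndex ℤ (𝓞 K) → Finset.Icc (-1 : ℤ) 1) := fun y =>
    (QuotientAddGroup.mk (⟨y, hs y y.2⟩ : I.toAddSubgroup),
      fun i => ⟨cf b i (y : 𝓞 K) / |dt b|, hrange y i⟩)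
  have hf : Function.Injective f := by
    intro y z hyz
    have h1 : (QuotientAddGroup.mk (⟨y, hs y y.2⟩ : I.toAddSubgroup) :
        I.toAddSubgroup ⧸ L.addSubgroupOf I.toAddSubgroup) =
        QuotientAddGroup.mk (⟨z, hs z z.2⟩ : I.toAddSubgroup) := congrArg Prod.fst hyz
    have h2 : ∀ i, cf b i (y : 𝓞 K) / |dt b| = cf b i (z : 𝓞 K) / |dt b| := fun i =>
      congrArg Subtype.val (congrFun (congrArg Prod.snd hyz) i)
    rw [QuotientAddGroup.eq] at h1
    have h3 : (-(y : 𝓞 K) + z) ∈ Submodule.span ℤ (Set.range b) := h1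
    rw [Submodule.mem_span_range_iff_exists_fun] at h3
    obtain ⟨k, hk⟩ := h3
    have h4 : ∀ i, cf b i (z : 𝓞 K) - cf b i (y : 𝓞 K) = k i * dt b := by
      intro i
      have h5 := congrArg (cf b i) hk
      rw [map_sum, map_add, map_neg, Finset.sum_eq_single i] at h5
      · rw [map_smul, cf_self, smul_eq_mul] at h5
        linarith
      · intro j _ hj
        rw [map_smul, cf_ne b hj.symm, smul_zero]
      · intro h0
        exact absurd (Finset.mem_univ _) h0
    have h6 : ∀ i, k i = 0 := by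
      intro i
      have e1 := Int.emod_add_mul_ediv (cf b i (z : 𝓞 K)) |dt b|
      have e2 := Int.emod_add_mul_ediv (cf b i (y : 𝓞 K)) |dt b|
      have p1 := Int.emod_nonneg (cf b i (z : 𝓞 K)) hd'.ne'
      have p2 := Int.emod_nonneg (cf b i (y : 𝓞 K)) hd'.ne'
      have p3 := Int.emod_lt_of_pos (cf b i (z : 𝓞 K)) hd'
      have p4 := Int.emod_lt_of_pos (cf b i (y : 𝓞 K)) hd'
      have h7 : |cf b i (z : 𝓞 K) - cf b i (y : 𝓞 K)| < |dt b| := by
        rw [h2 i] at e2
        rw [abs_lt]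
        constructor <;> linarith
      rw [h4 i, abs_mul] at h7
      by_contra hki
      have h8 : 1 ≤ |k i| := Int.one_le_abs hki
      nlinarith
    have h9 : -(y : 𝓞 K) + z = 0 := by
      rw [← hk]
      exact Finset.sum_eq_zero fun i _ => by rw [h6 i, zero_smul]
    apply Subtype.ext
    have : (z : 𝓞 K) = y := by
      have := add_eq_zero_iff_eq_neg.1 h9
      exact (neg_injective this).symm
    exact this.symm
  have hc := Nat.card_le_card_of_injective f hf
  rw [Nat.card_prod, Nat.card_eq_fintype_card, Fintype.card_coe] at hc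
  have hc2 : Nat.card (Free.ChooseBasisIndex ℤ (𝓞 K) → Finset.Icc (-1 : ℤ) 1) =
      3 ^ finrank ℚ K := by
    rw [Nat.card_eq_fintype_card, Fintype.card_fun, Fintype.card_coe, hcard]
    rfl
  rw [hc2] at hc
  have hc3 : Nat.card (I.toAddSubgroup ⧸ L.addSubgroupOf I.toAddSubgroup) =
      L.relIndex I.toAddSubgroup := rfl
  rw [hc3] at hc
  calc s.card * Ideal.absNorm I ≤ (L.relIndex I.toAddSubgroup * 3 ^ finrank ℚ K) *
        Ideal.absNorm I := Nat.mul_le_mul_right _ hc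
    _ = 3 ^ finrank ℚ K * (L.relIndex I.toAddSubgroup * Ideal.absNorm I) := by ring
    _ = _ := by rw [hrel]

/-- the elements of an ideal in a box which contains a basis -/
theorem box_card {I : Ideal (𝓞 K)} (hI : I ≠ ⊥) (T : InfinitePlace K → ℝ) (s : Finset (𝓞 K))
    (hs : ∀ y ∈ s, y ∈ I ∧ ∀ v : InfinitePlace K, v (y : K) ≤ T v)
    (hb : ∃ b : Free.ChooseBasisIndex ℤ (𝓞 K) → 𝓞 K, (∀ i, b i ∈ s) ∧ dt b ≠ 0) :
    (s.card : ℝ) * Ideal.absNorm I * √|(discr K : ℝ)| ≤
      3 ^ finrank ℚ K * (finrank ℚ K).factorial * ∏ v, T v ^ v.mult := by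
  classical
  obtain ⟨b0, hb0, hd0⟩ := hb
  obtain ⟨b, hb, hmax⟩ := Finset.exists_max_image
    (Fintype.piFinset fun _ : Free.ChooseBasisIndex ℤ (𝓞 K) => s) (fun b => |dt b|)
    ⟨b0, Fintype.mem_piFinset.2 hb0⟩
  rw [Fintype.mem_piFinset] at hb
  have hd : dt b ≠ 0 := by
    have h1 := hmax b0 (Fintype.mem_piFinset.2 hb0)
    have h2 := abs_pos.2 hd0
    exact abs_pos.1 (h2.trans_le h1)
  have h1 := card_le hI s (fun y hy => (hs y hy).1) b hb hd (by
    intro y hy i
    rw [cf_apply]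
    refine hmax _ (Fintype.mem_piFinset.2 fun j => ?_)
    by_cases h : j = i
    · rw [h, Function.update_self]; exact hy
    · rw [Function.update_of_ne h]; exact hb j)
  have h2 := dt_le b T fun i v => (hs _ (hb i)).2 v
  have h3 : (s.card : ℝ) * Ideal.absNorm I ≤ 3 ^ finrank ℚ K * |(dt b : ℝ)| := by
    have e : |(dt b : ℝ)| = ((dt b).natAbs : ℝ) := by
      rw [Nat.cast_natAbs, Int.cast_abs]
    rw [e]
    exact_mod_cast h1
  calc (s.card : ℝ) * Ideal.absNorm I * √|(discr K : ℝ)|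
      ≤ 3 ^ finrank ℚ K * |(dt b : ℝ)| * √|(discr K : ℝ)| :=
        mul_le_mul_of_nonneg_right h3 (Real.sqrt_nonneg _)
    _ = 3 ^ finrank ℚ K * (|(dt b : ℝ)| * √|(discr K : ℝ)|) := by ring
    _ ≤ 3 ^ finrank ℚ K * ((finrank ℚ K).factorial * ∏ v, T v ^ v.mult) :=
        mul_le_mul_of_nonneg_left h2 (by positivity)
    _ = _ := by ring

end Pool.Agent.N752.SU
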