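import Mathlib
import Pool.Agent.N752.SU.Box
import Pool.Agent.N752.SU.Rep
import Pool.Agent.Y733.UD.Ideals
import Pool.Agent.Y729.RV.Tup
import Pool.Agent.N752.RD.Low

/-!
The number of the points of projective space over a number field whose coordinates span the field:
an upper bound with the discriminant, uniform in the field.
-/

set_option autoImplicit false

namespace Pool.Agent.N752.SU

open NumberField Module Finset IsDedekindDomain Height
open scoped LinearAlgebra.Projectivization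
open Pool.Agent.R405 (mulHeight_int)

/-- the number of the ideals of bounded norm -/
theorem ideals_le {ε : ℝ} (hε : 0 < ε) : ∃ F : ℝ, 0 ≤ F ∧ ∀ (K : Type) [Field K] [NumberField K]
    (X : ℝ) (Q : Finset (Ideal (𝓞 K))), 1 ≤ X → (∀ I ∈ Q, I ≠ ⊥ ∧ (Ideal.absNorm I : ℝ) ≤ X) →
    (Q.card : ℝ) ≤ Real.exp (Module.finrank ℚ K * F) * X ^ (1 + ε) := by
  classical
  obtain ⟨F, hF, h⟩ := Pool.Agent.Y733.UD.ideals_card hε
  refine ⟨F, hF, fun K _ _ X Q hX hQ => ?_⟩
  have hinj : Set.InjOn (Pool.Agent.Y729.RV.ex (K := K)) (Q : Set (Ideal (𝓞 K))) := by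
    intro I hI I' hI' he
    have h1 := (hQ I hI).1
    have h1' := (hQ I' hI').1
    rw [← Pool.Agent.Y729.RV.prod_ex h1, ← Pool.Agent.Y729.RV.prod_ex h1']
    have e1 := Ideal.finprod_heightOneSpectrum_factorization h1
    have e2 := Ideal.finprod_heightOneSpectrum_factorization h1'
    rw [Pool.Agent.Y729.RV.prod_ex h1, Pool.Agent.Y729.RV.prod_ex h1', ← e1, ← e2]
    refine finprod_congr fun v => ?_
    unfold HeightOneSpectrum.maxPowDividing
    rw [← Pool.Agent.Y729.RV.ex_apply h1, ← Pool.Agent.Y729.RV.ex_apply h1', he]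
  rw [← Finset.card_image_of_injOn hinj]
  have h2 := h K (Real.log X) (Q.image (Pool.Agent.Y729.RV.ex (K := K))) (by
    intro a ha
    obtain ⟨I, hI, rfl⟩ := Finset.mem_image.1 ha
    obtain ⟨h1, h3⟩ := hQ I hI
    rw [Pool.Agent.Y729.RV.len_ex h1]
    refine Real.log_le_log ?_ h3
    have : Ideal.absNorm I ≠ 0 := by rwa [Ne, Ideal.absNorm_eq_zero_iff]
    exact_mod_cast Nat.pos_of_ne_zero this)
  refine h2.trans (le_of_eq ?_)
  rw [Real.exp_add, Real.rpow_def_of_pos (by linarith), mul_comm (1 + ε)]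

/-- the constant of the field `k` -/
noncomputable def ck (k : Type) [Field k] [NumberField k] : ℝ :=
  1 + ∑ p : Free.ChooseBasisIndex ℤ (𝓞 k) × InfinitePlace k, p.2 (RingOfIntegers.basis k p.1 : k)

lemma one_le_ck (k : Type) [Field k] [NumberField k] : 1 ≤ ck k := by
  unfold ck
  have : 0 ≤ ∑ p : Free.ChooseBasisIndex ℤ (𝓞 k) × InfinitePlace k,
      p.2 (RingOfIntegers.basis k p.1 : k) := Finset.sum_nonneg fun p _ => apply_nonneg _ _
  linarith

lemma le_ck (k : Type) [Field k] [NumberField k] {K : Type} [Field K] [NumberField K] [Algebra k K]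
    (v : InfinitePlace K) (i : Free.ChooseBasisIndex ℤ (𝓞 k)) :
    v (algebraMap k K (RingOfIntegers.basis k i : k)) ≤ ck k := by
  have h1 : v (algebraMap k K (RingOfIntegers.basis k i : k)) =
      (v.comap (algebraMap k K)) (RingOfIntegers.basis k i : k) := rfl
  rw [h1]
  unfold ck
  have h2 : (v.comap (algebraMap k K)) (RingOfIntegers.basis k i : k) ≤
      ∑ p : Free.ChooseBasisIndex ℤ (𝓞 k) × InfinitePlace k,
        p.2 (RingOfIntegers.basis k p.1 : k) :=
    Finset.single_le_sum (f := fun p : Free.ChooseBasisIndex ℤ (𝓞 k) × InfinitePlace k =>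
      p.2 (RingOfIntegers.basis k p.1 : k)) (fun p _ => apply_nonneg _ _)
      (Finset.mem_univ (i, v.comap (algebraMap k K)))
  linarith

/-- a basis among the coordinates -/
lemma exists_basis (k : Type) [Field k] [NumberField k] {K : Type} [Field K] [NumberField K]
    [Algebra k K] {m : ℕ} (y : Fin (m + 1) → 𝓞 K)
    (h : Submodule.span k (Set.range fun j => (y j : K)) = ⊤) :
    ∃ b : Free.ChooseBasisIndex ℤ (𝓞 K) → 𝓞 K,
      (∀ i, ∃ p j, b i = algebraMap (𝓞 k) (𝓞 K) (RingOfIntegers.basis k p) * y j) ∧ dt b ≠ 0 := by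
  classical
  let w : Free.ChooseBasisIndex ℤ (𝓞 k) × Fin (m + 1) → K := fun p =>
    (RingOfIntegers.basis k p.1 : k) • (y p.2 : K)
  have hk : Submodule.span ℚ (Set.range fun i => (RingOfIntegers.basis k i : k)) = ⊤ := by
    have h1 := (integralBasis k).span_eq
    have h2 : (integralBasis k : Free.ChooseBasisIndex ℤ (𝓞 k) → k) =
        fun i => (RingOfIntegers.basis k i : k) := funext fun i => integralBasis_apply k i
    rwa [h2] at h1
  have hw : Submodule.span ℚ (Set.range w) = ⊤ := by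
    have h1 := Submodule.span_smul_of_span_eq_top hk (Set.range fun j => (y j : K))
    rw [h, Set.range_smul_range] at h1
    rw [h1]
    rfl
  obtain ⟨κ, a, ha, hsp, hli⟩ := exists_linearIndependent' ℚ w
  rw [hw] at hsp
  have hfin : Finite κ := Finite.of_injective a ha
  have : Fintype κ := Fintype.ofFinite κ
  have hc : Fintype.card κ = finrank ℚ K := by
    rw [← finrank_top ℚ K, ← hsp, finrank_span_eq_card hli]
  have hcard : Fintype.card (Free.ChooseBasisIndex ℤ (𝓞 K)) = Fintype.card κ := by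
    rw [hc, ← RingOfIntegers.rank K, finrank_eq_card_chooseBasisIndex]
  let e := Fintype.equivOfCardEq hcard
  refine ⟨fun i => algebraMap (𝓞 k) (𝓞 K) (RingOfIntegers.basis k (a (e i)).1) * y (a (e i)).2,
    fun i => ⟨(a (e i)).1, (a (e i)).2, rfl⟩, dt_ne_zero ?_⟩
  have h1 := hli.comp e e.injective
  have h2 : (fun i => ((algebraMap (𝓞 k) (𝓞 K) (RingOfIntegers.basis k (a (e i)).1) *
      y (a (e i)).2 : 𝓞 K) : K)) = (w ∘ a) ∘ e := by
    funext i
    show algebraMap (𝓞 K) K (algebraMap (𝓞 k) (𝓞 K) (RingOfIntegers.basis k (a (e i)).1) *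
      y (a (e i)).2) = (RingOfIntegers.basis k (a (e i)).1 : k) • (y (a (e i)).2 : K)
    rw [map_mul, Algebra.smul_def]
    rfl
  rw [h2]
  exact h1

/-- the number of the cells -/
lemma cells_le (n : ℕ) (hn : 1 ≤ n) {ε : ℝ} (hε : 0 < ε) : ∃ C : ℝ, 1 ≤ C ∧ ∀ U : ℝ, 1 ≤ U →
    (2 * ((n + 1) * Real.logb 2 U + 2) + 1) ^ n ≤ C * U ^ ε := by
  have hn0 : (0 : ℝ) < n := by exact_mod_cast hn
  have hl2 : 0 < Real.log 2 := Real.log_pos (by norm_num)
  set a : ℝ := 2 * (n + 1) / Real.log 2 * (n / ε) + 5 with ha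
  have ha1 : 1 ≤ a := by
    have : 0 ≤ 2 * (n + 1) / Real.log 2 * (n / ε) := by positivity
    linarith
  refine ⟨a ^ n, one_le_pow₀ ha1, fun U hU => ?_⟩
  have hU0 : 0 < U := by linarith
  have h1 : Real.log U ≤ U ^ (ε / n) / (ε / n) := Real.log_le_rpow_div hU0.le (by positivity)
  have h2 : 1 ≤ U ^ (ε / n) := Real.one_le_rpow hU (by positivity)
  have h3 : 2 * ((n + 1) * Real.logb 2 U + 2) + 1 ≤ a * U ^ (ε / n) := by
    unfold Real.logb
    have e1 : 2 * ((n + 1) * (Real.log U / Real.log 2) + 2) + 1 =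
        2 * (n + 1) / Real.log 2 * Real.log U + 5 := by
      field_simp
      ring
    have e2 : a * U ^ (ε / n) = 2 * (n + 1) / Real.log 2 * (U ^ (ε / n) / (ε / n)) +
        5 * U ^ (ε / n) := by
      rw [ha]
      field_simp
    rw [e1, e2]
    have h4 : 2 * (n + 1) / Real.log 2 * Real.log U ≤
        2 * (n + 1) / Real.log 2 * (U ^ (ε / n) / (ε / n)) :=
      mul_le_mul_of_nonneg_left h1 (by positivity)
    linarith
  have h5 : 0 ≤ 2 * ((n + 1) * Real.logb 2 U + 2) + 1 := by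
    have : 0 ≤ Real.logb 2 U := Real.logb_nonneg (by norm_num) hU
    positivity
  calc (2 * ((n + 1) * Real.logb 2 U + 2) + 1) ^ n ≤ (a * U ^ (ε / n)) ^ n :=
        pow_le_pow_left₀ h5 h3 n
    _ = a ^ n * U ^ ε := by
        rw [mul_pow, ← Real.rpow_natCast (U ^ (ε / n)), ← Real.rpow_mul hU0.le]
        congr 2
        field_simp

section one

variable {K : Type} [Field K] [NumberField K] {m : ℕ}

lemma rep_height (Q : ℙ K (Fin (m + 1) → K)) : mulHeight Q.rep = Q.mulHeight := by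
  conv_rhs => rw [← Q.mk_rep]
  rw [Projectivization.mulHeight_mk]

lemma one_le_sqrt : 1 ≤ √|(discr K : ℝ)| := by
  rw [Real.one_le_sqrt]
  have h : discr K ≠ 0 := discr_ne_zero K
  have : 1 ≤ |discr K| := Int.one_le_abs h
  exact_mod_cast this

/-- the bound for the size of a place -/
lemma low_place (M : InfinitePlace K → ℝ) {U : ℝ} (hU : 1 ≤ U) (hM0 : ∀ v, 0 < M v)
    (hM : ∀ v, M v ≤ U) (h : 1 ≤ ∏ v, M v ^ v.mult) (v : InfinitePlace K) :
    (U ^ finrank ℚ K)⁻¹ ≤ M v := by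
  classical
  have hU0 : 0 < U := by linarith
  by_cases h1 : 1 ≤ M v
  · refine le_trans (inv_le_one_of_one_le₀ (one_le_pow₀ hU)) h1
  push Not at h1
  rw [← Finset.mul_prod_erase _ _ (Finset.mem_univ v)] at h
  have h2 : ∏ w ∈ Finset.univ.erase v, M w ^ w.mult ≤ U ^ finrank ℚ K := by
    calc ∏ w ∈ Finset.univ.erase v, M w ^ w.mult ≤ ∏ w ∈ Finset.univ.erase v, U ^ w.mult :=
          Finset.prod_le_prod (fun w _ => pow_nonneg (hM0 w).le _)
            fun w _ => pow_le_pow_left₀ (hM0 w).le (hM w) _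
      _ ≤ U ^ v.mult * ∏ w ∈ Finset.univ.erase v, U ^ w.mult :=
          le_mul_of_one_le_left (Finset.prod_nonneg fun w _ => pow_nonneg hU0.le _)
            (one_le_pow₀ hU)
      _ = ∏ w : InfinitePlace K, U ^ w.mult :=
          Finset.mul_prod_erase _ (fun w : InfinitePlace K => U ^ w.mult) (Finset.mem_univ v)
      _ = U ^ finrank ℚ K := by
          rw [Finset.prod_pow_eq_pow_sum, InfinitePlace.sum_mult_eq]
  have h3 : M v ^ v.mult ≤ M v := by
    have h4 : 1 ≤ v.mult := InfinitePlace.mult_pos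
    calc M v ^ v.mult ≤ M v ^ 1 := pow_le_pow_of_le_one (hM0 v).le h1.le h4
      _ = M v := pow_one _
  rw [inv_le_iff_one_le_mul₀ (by positivity)]
  calc (1 : ℝ) ≤ M v ^ v.mult * ∏ w ∈ Finset.univ.erase v, M w ^ w.mult := h
    _ ≤ M v * U ^ finrank ℚ K := mul_le_mul h3 h2 (Finset.prod_nonneg fun w _ =>
        pow_nonneg (hM0 w).le _) (hM0 v).le

/-- the point from its integral representative -/
lemma eq_of_lam {Q Q' : ℙ K (Fin (m + 1) → K)} {l l' : K} (hl : l ≠ 0)
    (h : ∀ j, l * Q.rep j = l' * Q'.rep j) : Q = Q' := by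
  refine Pool.Agent.N752.RD.eq_of_rep (s := l' / l) fun j => ?_
  have := h j
  field_simp
  linear_combination this

/-- the points with given ideal and given size at the infinite places -/
lemma fibre_le (k : Type) [Field k] [NumberField k] [Algebra k K] {n : ℕ} (hn : finrank ℚ K = n)
    {H : ℝ} (lam : ℙ K (Fin (m + 1) → K) → K) (y : ℙ K (Fin (m + 1) → K) → Fin (m + 1) → 𝓞 K)
    (hlam : ∀ Q, lam Q ≠ 0) (hy : ∀ Q j, (y Q j : K) = lam Q * Q.rep j)
    (I : Ideal (𝓞 K)) (hI : I ≠ ⊥) (T : InfinitePlace K → ℝ) (hT0 : ∀ v, 0 ≤ T v)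
    (hT : ∏ v, T v ^ v.mult ≤ 2 ^ n * (H * Ideal.absNorm I)) (hH : 0 ≤ H)
    (F : Finset (ℙ K (Fin (m + 1) → K)))
    (hF : ∀ Q ∈ F, Ideal.span (Set.range (y Q)) = I ∧ (∀ v j, v (y Q j : K) ≤ T v) ∧
      Submodule.span k (Set.range fun j => (y Q j : K)) = ⊤) :
    (F.card : ℝ) ≤ ((6 * ck k) ^ n * n.factorial * H / √|(discr K : ℝ)|) ^ (m + 1) := by
  classical
  have hck := one_le_ck k
  have hq0 : 0 < √|(discr K : ℝ)| := lt_of_lt_of_le one_pos one_le_sqrt
  rcases F.eq_empty_or_nonempty with rfl | ⟨Q0, hQ0⟩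
  · rw [Finset.card_empty, Nat.cast_zero]
    positivity
  set s : Finset (𝓞 K) := F.biUnion fun Q => Finset.univ.image (y Q) with hs
  have hmem : ∀ Q ∈ F, ∀ j, y Q j ∈ s := by
    intro Q hQ j
    rw [hs, Finset.mem_biUnion]
    exact ⟨Q, hQ, Finset.mem_image_of_mem _ (Finset.mem_univ j)⟩
  have hsI : ∀ z ∈ s, z ∈ I ∧ ∀ v : InfinitePlace K, v (z : K) ≤ T v := by
    intro z hz
    rw [hs, Finset.mem_biUnion] at hz
    obtain ⟨Q, hQ, hz⟩ := hz
    obtain ⟨j, -, rfl⟩ := Finset.mem_image.1 hz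
    obtain ⟨h1, h2, -⟩ := hF Q hQ
    refine ⟨?_, fun v => h2 v j⟩
    rw [← h1]
    exact Ideal.subset_span (Set.mem_range_self j)
  set s' : Finset (𝓞 K) := s ∪ (Finset.univ ×ˢ s).image
    (fun p : Free.ChooseBasisIndex ℤ (𝓞 k) × 𝓞 K =>
      algebraMap (𝓞 k) (𝓞 K) (RingOfIntegers.basis k p.1) * p.2) with hs'
  have hss' : s ⊆ s' := Finset.subset_union_left
  have hN0 : (0 : ℝ) < Ideal.absNorm I := by
    have : Ideal.absNorm I ≠ 0 := by rwa [Ne, Ideal.absNorm_eq_zero_iff]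
    exact_mod_cast Nat.pos_of_ne_zero this
  have h1 := box_card hI (fun v => ck k * T v) s' (by
    intro z hz
    rw [hs', Finset.mem_union] at hz
    rcases hz with hz | hz
    · obtain ⟨h1, h2⟩ := hsI z hz
      refine ⟨h1, fun v => (h2 v).trans (le_mul_of_one_le_left (hT0 v) hck)⟩
    · obtain ⟨⟨i, z⟩, hz', rfl⟩ := Finset.mem_image.1 hz
      rw [Finset.mem_product] at hz'
      obtain ⟨h1, h2⟩ := hsI z hz'.2
      refine ⟨I.mul_mem_left _ h1, fun v => ?_⟩
      have e1 : ((algebraMap (𝓞 k) (𝓞 K) (RingOfIntegers.basis k i) * z : 𝓞 K) : K) =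
          algebraMap k K (RingOfIntegers.basis k i : k) * (z : K) := by
        show algebraMap (𝓞 K) K (algebraMap (𝓞 k) (𝓞 K) (RingOfIntegers.basis k i) * z) = _
        rw [map_mul]
        rfl
      show v ((algebraMap (𝓞 k) (𝓞 K) (RingOfIntegers.basis k i) * z : 𝓞 K) : K) ≤ ck k * T v
      rw [e1, map_mul]
      exact mul_le_mul (le_ck k v i) (h2 v) (apply_nonneg _ _) (by linarith)) (by
    obtain ⟨b, hb, hd⟩ := exists_basis k (y Q0) (hF Q0 hQ0).2.2
    refine ⟨b, fun i => ?_, hd⟩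
    obtain ⟨p, j, hj⟩ := hb i
    rw [hj, hs', Finset.mem_union]
    right
    exact Finset.mem_image.2 ⟨(p, y Q0 j), Finset.mem_product.2 ⟨Finset.mem_univ _,
      hmem Q0 hQ0 j⟩, rfl⟩)
  have h2 : (s.card : ℝ) ≤ (6 * ck k) ^ n * n.factorial * H / √|(discr K : ℝ)| := by
    rw [le_div_iff₀ hq0]
    have hprod : ∏ v : InfinitePlace K, (ck k * T v) ^ v.mult =
        ck k ^ n * ∏ v : InfinitePlace K, T v ^ v.mult := by
      simp only [mul_pow]
      rw [Finset.prod_mul_distrib, Finset.prod_pow_eq_pow_sum, InfinitePlace.sum_mult_eq, hn]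
    rw [hprod, hn] at h1
    have h3 : (s'.card : ℝ) * Ideal.absNorm I * √|(discr K : ℝ)| ≤
        3 ^ n * n.factorial * (ck k ^ n * (2 ^ n * (H * Ideal.absNorm I))) :=
      h1.trans (mul_le_mul_of_nonneg_left (mul_le_mul_of_nonneg_left hT (by positivity))
        (by positivity))
    have h3' : (s.card : ℝ) ≤ s'.card := by exact_mod_cast Finset.card_le_card hss'
    have h3'' : (s.card : ℝ) * (Ideal.absNorm I * √|(discr K : ℝ)|) ≤
        s'.card * (Ideal.absNorm I * √|(discr K : ℝ)|) :=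
      mul_le_mul_of_nonneg_right h3' (by positivity)
    have h4 : (Ideal.absNorm I : ℝ) * ((s.card : ℝ) * √|(discr K : ℝ)|) ≤
        Ideal.absNorm I * ((6 * ck k) ^ n * n.factorial * H) := by
      have e : (6 * ck k) ^ n = 3 ^ n * 2 ^ n * ck k ^ n := by
        rw [← mul_pow, ← mul_pow]; norm_num
      rw [e]
      linarith
    exact le_of_mul_le_mul_left h4 hN0
  have h5 : F.card ≤ s.card ^ (m + 1) := by
    have h6 : F.card ≤ (Fintype.piFinset fun _ : Fin (m + 1) => s).card := by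
      refine Finset.card_le_card_of_injOn y (fun Q hQ => ?_) ?_
      · rw [Finset.mem_coe, Fintype.mem_piFinset]
        exact hmem Q hQ
      · intro Q _ Q' _ he
        refine eq_of_lam (hlam Q) (l' := lam Q') fun j => ?_
        rw [← hy, ← hy, he]
    rw [Fintype.card_piFinset, Finset.prod_const, Finset.card_univ, Fintype.card_fin] at h6
    exact h6
  have h7 : (F.card : ℝ) ≤ (s.card : ℝ) ^ (m + 1) := by exact_mod_cast h5
  exact h7.trans (pow_le_pow_left₀ (Nat.cast_nonneg _) h2 _)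

end one

end Pool.Agent.N752.SU
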