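import Mathlib

/-!
A diagonal argument: countably many sets of density zero and one set of density zero.
-/

set_option autoImplicit false

namespace Pool.Agent.N752.SU

/-- the set `E` has density zero in the exhaustion `F` -/
def DensityZero {X : Type*} (F : ℝ → Set X) (E : Set X) : Prop :=
  ∀ ε : ℝ, 0 < ε → ∃ B₀ : ℝ, ∀ B : ℝ, B₀ ≤ B → ((E ∩ F B).ncard : ℝ) ≤ ε * ((F B).ncard : ℝ)

theorem diag {X : Type*} (F : ℝ → Set X) (hF : Monotone F) (hfin : ∀ B, (F B).Finite)
    (E : ℕ → Set X) (hE : ∀ i, DensityZero F (E i)) :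
    ∃ E₀ : Set X, DensityZero F E₀ ∧ ∀ i, ∃ B : ℝ, ∀ x ∈ E i, x ∉ F B → x ∈ E₀ := by
  classical
  have h1 : ∀ i j : ℕ, ∃ t : ℝ, ∀ B : ℝ, t ≤ B →
      ((E j ∩ F B).ncard : ℝ) ≤ 1 / ((i : ℝ) + 1) ^ 2 * ((F B).ncard : ℝ) := fun i j =>
    hE j _ (by positivity)
  choose t ht using h1
  let T : ℕ → ℝ := fun i => ∑ i' ∈ Finset.range (i + 1), (1 + ∑ j ∈ Finset.range (i' + 1), |t i' j|)
  have hTmono : Monotone T := by
    refine monotone_nat_of_le_succ fun i => ?_
    show T i ≤ ∑ i' ∈ Finset.range (i + 1 + 1), (1 + ∑ j ∈ Finset.range (i' + 1), |t i' j|)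
    rw [Finset.sum_range_succ]
    have : 0 ≤ 1 + ∑ j ∈ Finset.range (i + 1 + 1), |t (i + 1) j| := by
      have : 0 ≤ ∑ j ∈ Finset.range (i + 1 + 1), |t (i + 1) j| :=
        Finset.sum_nonneg fun j _ => abs_nonneg _
      linarith
    show T i ≤ T i + (1 + ∑ j ∈ Finset.range (i + 1 + 1), |t (i + 1) j|)
    linarith
  have hTi : ∀ i : ℕ, (i : ℝ) ≤ T i := by
    intro i
    have h2 : ∑ i' ∈ Finset.range (i + 1), (1 : ℝ) ≤ T i :=
      Finset.sum_le_sum fun i' _ => by
        have : 0 ≤ ∑ j ∈ Finset.range (i' + 1), |t i' j| :=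
          Finset.sum_nonneg fun j _ => abs_nonneg _
        linarith
    rw [Finset.sum_const, Finset.card_range, nsmul_eq_mul, mul_one] at h2
    push_cast at h2
    linarith
  have hTt : ∀ i j : ℕ, j ≤ i → t i j ≤ T i := by
    intro i j hji
    have h2 : |t i j| ≤ ∑ j ∈ Finset.range (i + 1), |t i j| :=
      Finset.single_le_sum (f := fun j => |t i j|) (fun j _ => abs_nonneg _)
        (Finset.mem_range.2 (by omega))
    have h3 : 1 + ∑ j ∈ Finset.range (i + 1), |t i j| ≤ T i :=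
      Finset.single_le_sum (f := fun i' => 1 + ∑ j ∈ Finset.range (i' + 1), |t i' j|)
        (fun i' _ => by
          have : 0 ≤ ∑ j ∈ Finset.range (i' + 1), |t i' j| :=
            Finset.sum_nonneg fun j _ => abs_nonneg _
          linarith) (Finset.mem_range.2 (Nat.lt_succ_self i))
    have h4 := le_abs_self (t i j)
    linarith
  refine ⟨⋃ i, E i \ F (T i), ?_, fun i => ⟨T i, fun x hx hxF => ?_⟩⟩
  · intro ε hε
    obtain ⟨M, hM⟩ : ∃ M : ℕ, 1 / ε ≤ M := exists_nat_ge _
    refine ⟨T M, fun B hB => ?_⟩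
    -- the last index
    have hex : ∃ i : ℕ, B < T i := by
      obtain ⟨i, hi⟩ := exists_nat_gt B
      exact ⟨i, lt_of_lt_of_le hi (hTi i)⟩
    set s := Nat.find hex with hs
    have hs1 : B < T s := Nat.find_spec hex
    have hMs : M < s := by
      by_contra h
      push Not at h
      have := hTmono h
      linarith
    obtain ⟨j, hj⟩ : ∃ j, s = j + 1 := ⟨s - 1, by omega⟩
    have hj1 : T j ≤ B := by
      have := Nat.find_min hex (m := j) (by omega)
      push Not at this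
      exact this
    have hsub : (⋃ i, E i \ F (T i)) ∩ F B ⊆ ⋃ i ∈ Finset.range (j + 1), E i ∩ F B := by
      rintro x ⟨hx, hxB⟩
      rw [Set.mem_iUnion] at hx
      obtain ⟨i, hxi, hxF⟩ := hx
      rw [Set.mem_iUnion₂]
      refine ⟨i, ?_, hxi, hxB⟩
      rw [Finset.mem_range]
      by_contra h
      have h2 : T s ≤ T i := hTmono (by omega)
      exact hxF (hF (by linarith) hxB)
    have hfin2 : (⋃ i ∈ Finset.range (j + 1), E i ∩ F B).Finite :=
      Set.Finite.biUnion (Finset.finite_toSet _) fun i _ => (hfin B).subset Set.inter_subset_right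
    have h2 : (((⋃ i, E i \ F (T i)) ∩ F B).ncard : ℝ) ≤
        ∑ i ∈ Finset.range (j + 1), ((E i ∩ F B).ncard : ℝ) := by
      have := (Set.ncard_le_ncard hsub hfin2).trans
        (Finset.set_ncard_biUnion_le (Finset.range (j + 1)) fun i => E i ∩ F B)
      exact_mod_cast this
    refine h2.trans ?_
    have h3 : ∀ i ∈ Finset.range (j + 1), ((E i ∩ F B).ncard : ℝ) ≤
        1 / ((j : ℝ) + 1) ^ 2 * ((F B).ncard : ℝ) := by
      intro i hi
      rw [Finset.mem_range] at hi
      exact ht j i B ((hTt j i (by omega)).trans hj1)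
    refine (Finset.sum_le_card_nsmul _ _ _ h3).trans ?_
    rw [Finset.card_range, nsmul_eq_mul, ← mul_assoc]
    refine mul_le_mul_of_nonneg_right ?_ (Nat.cast_nonneg _)
    have h4 : (M : ℝ) ≤ (j : ℝ) + 1 := by
      have : M ≤ j + 1 := by omega
      exact_mod_cast this
    have h5 : 0 < (j : ℝ) + 1 := by positivity
    have h6 : ((j + 1 : ℕ) : ℝ) * (1 / ((j : ℝ) + 1) ^ 2) = 1 / ((j : ℝ) + 1) := by
      push_cast
      field_simp
    rw [h6, div_le_iff₀ h5]
    have h7 : 1 / ε ≤ (j : ℝ) + 1 := hM.trans h4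
    rw [div_le_iff₀ hε] at h7
    linarith
  · rw [Set.mem_iUnion]
    exact ⟨i, hx, hxF⟩

end Pool.Agent.N752.SU
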