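import Mathlib
import Pool.Agent.N752.SU.Count

/-!
The uniform upper bound for the number of the points whose coordinates span the field.
-/

set_option autoImplicit false

namespace Pool.Agent.N752.SU

open NumberField Module Finset IsDedekindDomain Height
open scoped LinearAlgebra.Projectivization
open Pool.Agent.R405 (mulHeight_int)

/-- **The uniform upper bound**: the points of relative height at most `H` whose coordinates span the
field `K` over `k`. -/
theorem pts_card (k : Type) [Field k] [NumberField k] (n m : ℕ) (hn : 1 ≤ n) {ε : ℝ}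
    (hε : 0 < ε) : ∃ C : ℝ, 1 ≤ C ∧
    ∀ (K : Type) [Field K] [NumberField K] [Algebra k K], finrank ℚ K = n → ∀ H : ℝ, 1 ≤ H →
      ∀ F : Finset (ℙ K (Fin (m + 1) → K)),
      (∀ Q ∈ F, Q.mulHeight ≤ H ∧ Submodule.span k (Set.range Q.rep) = ⊤) →
      (F.card : ℝ) ≤ C * H ^ ((m : ℝ) + 1 + ε) * √|(discr K : ℝ)| ^ (ε - m) := by
  classical
  obtain ⟨F0, hF0, hid⟩ := ideals_le (half_pos hε)
  obtain ⟨C1, hC1, hcell⟩ := cells_le n hn (half_pos hε)
  set A : ℝ := (6 * ck k) ^ n * n.factorial with hA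
  have hA1 : 1 ≤ A := by
    have h1 : (1 : ℝ) ≤ (6 * ck k) ^ n := one_le_pow₀ (by linarith [one_le_ck k])
    have h2 : (1 : ℝ) ≤ n.factorial := by exact_mod_cast Nat.one_le_iff_ne_zero.2 (Nat.factorial_ne_zero n)
    exact one_le_mul_of_one_le_of_one_le h1 h2
  refine ⟨Real.exp (n * F0) * 2 ^ (1 + ε / 2) * (C1 * 2 ^ (ε / 2)) * A ^ (m + 1), ?_, ?_⟩
  · have h1 : 1 ≤ Real.exp (n * F0) := Real.one_le_exp (by positivity)
    have h2 : (1 : ℝ) ≤ 2 ^ (1 + ε / 2) := Real.one_le_rpow (by norm_num) (by positivity)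
    have h3 : (1 : ℝ) ≤ 2 ^ (ε / 2) := Real.one_le_rpow (by norm_num) (by positivity)
    exact one_le_mul_of_one_le_of_one_le (one_le_mul_of_one_le_of_one_le
      (one_le_mul_of_one_le_of_one_le h1 h2) (one_le_mul_of_one_le_of_one_le hC1 h3))
      (one_le_pow₀ hA1)
  intro K _ _ _ hK H hH F hF
  have hH0 : 0 < H := by linarith
  set q : ℝ := √|(discr K : ℝ)| with hq
  have hq1 : 1 ≤ q := one_le_sqrt
  have hq0 : 0 < q := by linarith
  set U : ℝ := (q + 1) * H ^ 2 with hU
  have hU1 : 1 ≤ U := one_le_mul_of_one_le_of_one_le (by linarith) (one_le_pow₀ hH)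
  have hU0 : 0 < U := by linarith
  have hrep := fun Q : ℙ K (Fin (m + 1) → K) => exists_rep (m + 1) Q.rep Q.rep_nonzero
  choose lam y hlam hy hyU hyN using hrep
  let M : ℙ K (Fin (m + 1) → K) → InfinitePlace K → ℝ := fun Q v => ⨆ i, v (y Q i : K)
  let I : ℙ K (Fin (m + 1) → K) → Ideal (𝓞 K) := fun Q => Ideal.span (Set.range (y Q))
  let e : ℙ K (Fin (m + 1) → K) → InfinitePlace K → ℤ := fun Q v => ⌈Real.logb 2 (M Q v)⌉
  set N : ℤ := ⌈(n + 1) * Real.logb 2 U⌉ + 1 with hN
  have hLU : 0 ≤ Real.logb 2 U := Real.logb_nonneg (by norm_num) hU1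
  -- facts
  have hrepne : ∀ Q : ℙ K (Fin (m + 1) → K), ∃ j, Q.rep j ≠ 0 := fun Q =>
    Function.ne_iff.1 Q.rep_nonzero
  have hyne : ∀ Q, ∃ j, y Q j ≠ 0 := by
    intro Q
    obtain ⟨j, hj⟩ := hrepne Q
    refine ⟨j, fun h0 => ?_⟩
    have h1 := hy Q j
    rw [h0] at h1
    have h2 : lam Q * Q.rep j = 0 := by rw [← h1]; simp
    exact mul_ne_zero (hlam Q) hj h2
  have hyne' : ∀ Q, y Q ≠ 0 := fun Q => Function.ne_iff.2 (hyne Q)
  have hIne : ∀ Q, I Q ≠ ⊥ := by
    intro Q h
    obtain ⟨j, hj⟩ := hyne Q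
    apply hj
    have : y Q j ∈ I Q := Ideal.subset_span (Set.mem_range_self j)
    rw [h] at this
    exact this
  have hIN : ∀ Q, (1 : ℝ) ≤ Ideal.absNorm (I Q) := by
    intro Q
    have : Ideal.absNorm (I Q) ≠ 0 := by rw [Ne, Ideal.absNorm_eq_zero_iff]; exact hIne Q
    exact_mod_cast Nat.one_le_iff_ne_zero.2 this
  have hle : ∀ Q v i, v (y Q i : K) ≤ M Q v := fun Q v i =>
    le_ciSup (f := fun i => v (y Q i : K)) (Set.finite_range _).bddAbove i
  have hM0 : ∀ Q v, 0 < M Q v := by
    intro Q v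
    obtain ⟨j, hj⟩ := hyne Q
    refine lt_of_lt_of_le ?_ (hle Q v j)
    rw [InfinitePlace.pos_iff]
    exact RingOfIntegers.coe_ne_zero_iff.2 hj
  have hht : ∀ Q, Q.mulHeight * Ideal.absNorm (I Q) = ∏ v, M Q v ^ v.mult := by
    intro Q
    have h1 := mulHeight_int (y Q) (hyne' Q)
    rw [← h1]
    congr 1
    have h2 : (fun j => (y Q j : K)) = lam Q • Q.rep := funext fun j => hy Q j
    rw [h2, mulHeight_smul_eq_mulHeight _ (hlam Q), rep_height]
  have hmh1 : ∀ Q : ℙ K (Fin (m + 1) → K), 1 ≤ Q.mulHeight := by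
    intro Q
    rw [← rep_height]
    exact one_le_mulHeight _
  have hMU : ∀ Q ∈ F, ∀ v, M Q v ≤ U := by
    intro Q hQ v
    refine ciSup_le fun i => (hyU Q v i).trans ?_
    rw [hU, rep_height]
    refine mul_le_mul_of_nonneg_left ?_ (by linarith)
    exact pow_le_pow_left₀ (by linarith [hmh1 Q]) (hF Q hQ).1 2
  have hMprod : ∀ Q, 1 ≤ ∏ v, M Q v ^ v.mult := by
    intro Q
    rw [← hht]
    exact one_le_mul_of_one_le_of_one_le (hmh1 Q) (hIN Q)
  have hpow : ∀ Q v, M Q v ≤ (2 : ℝ) ^ (e Q v) ∧ (2 : ℝ) ^ (e Q v) ≤ 2 * M Q v := by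
    intro Q v
    have h1 : (2 : ℝ) ^ (e Q v) = (2 : ℝ) ^ ((e Q v : ℤ) : ℝ) := (Real.rpow_intCast 2 _).symm
    have h2 : (2 : ℝ) ^ Real.logb 2 (M Q v) = M Q v :=
      Real.rpow_logb (by norm_num) (by norm_num) (hM0 Q v)
    rw [h1]
    constructor
    · conv_lhs => rw [← h2]
      exact Real.rpow_le_rpow_of_exponent_le (by norm_num) (Int.le_ceil _)
    · conv_rhs => rw [← h2]
      have h3 : (2 : ℝ) * 2 ^ Real.logb 2 (M Q v) = 2 ^ (Real.logb 2 (M Q v) + 1) := by
        rw [Real.rpow_add (by norm_num), Real.rpow_one, mul_comm]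
      rw [h3]
      exact Real.rpow_le_rpow_of_exponent_le (by norm_num) (Int.ceil_lt_add_one _).le
  have hcellmem : ∀ Q ∈ F, e Q ∈ Fintype.piFinset fun _ : InfinitePlace K => Finset.Icc (-N) N := by
    intro Q hQ
    rw [Fintype.mem_piFinset]
    intro v
    have h1 : Real.logb 2 (M Q v) ≤ Real.logb 2 U :=
      Real.logb_le_logb_of_le (by norm_num) (hM0 Q v) (hMU Q hQ v)
    have h2 : -(n * Real.logb 2 U) ≤ Real.logb 2 (M Q v) := by
      have h3 := low_place (M Q) hU1 (hM0 Q) (hMU Q hQ) (hMprod Q) v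
      have h4 := Real.logb_le_logb_of_le (b := 2) (by norm_num)
        (inv_pos.2 (pow_pos hU0 (finrank ℚ K))) h3
      rwa [Real.logb_inv, Real.logb_pow, hK] at h4
    have h5 : Real.logb 2 U ≤ (n + 1) * Real.logb 2 U := by
      have : 0 ≤ (n : ℝ) * Real.logb 2 U := by positivity
      linarith
    have h6 : (n + 1) * Real.logb 2 U ≤ (N : ℝ) - 1 := by
      rw [hN]
      push_cast
      have := Int.le_ceil ((n + 1) * Real.logb 2 U)
      linarith
    rw [Finset.mem_Icc]
    constructor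
    · have h7 : ((-N : ℤ) : ℝ) ≤ (e Q v : ℝ) := by
        push_cast
        have h8 := Int.le_ceil (Real.logb 2 (M Q v))
        have h9 : (e Q v : ℝ) = ((⌈Real.logb 2 (M Q v)⌉ : ℤ) : ℝ) := rfl
        rw [h9]
        linarith
      exact_mod_cast h7
    · have h7 : (e Q v : ℝ) ≤ (N : ℝ) := by
        have h8 := Int.ceil_lt_add_one (Real.logb 2 (M Q v))
        have h9 : (e Q v : ℝ) = ((⌈Real.logb 2 (M Q v)⌉ : ℤ) : ℝ) := rfl
        rw [h9]
        linarith
      exact_mod_cast h7
  -- the fibres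
  let G : ℙ K (Fin (m + 1) → K) → Ideal (𝓞 K) × (InfinitePlace K → ℤ) := fun Q => (I Q, e Q)
  set R : ℝ := (A * H / q) ^ (m + 1) with hR
  have hR0 : 0 ≤ R := by positivity
  have hfib : ∀ g ∈ F.image G, ((F.filter fun Q => G Q = g).card : ℝ) ≤ R := by
    intro g hg
    obtain ⟨Q0, hQ0, rfl⟩ := Finset.mem_image.1 hg
    refine fibre_le k hK lam y hlam hy (I Q0) (hIne Q0) (fun v => (2 : ℝ) ^ (e Q0 v))
      (fun v => by positivity) ?_ hH0.le _ ?_
    · calc ∏ v : InfinitePlace K, ((2 : ℝ) ^ (e Q0 v)) ^ v.mult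
          ≤ ∏ v : InfinitePlace K, (2 * M Q0 v) ^ v.mult :=
            Finset.prod_le_prod (fun v _ => by positivity)
              fun v _ => pow_le_pow_left₀ (by positivity) (hpow Q0 v).2 _
        _ = 2 ^ n * ∏ v, M Q0 v ^ v.mult := by
            simp only [mul_pow]
            rw [Finset.prod_mul_distrib, Finset.prod_pow_eq_pow_sum, InfinitePlace.sum_mult_eq, hK]
        _ ≤ 2 ^ n * (H * Ideal.absNorm (I Q0)) := by
            rw [← hht]
            refine mul_le_mul_of_nonneg_left ?_ (by positivity)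
            exact mul_le_mul_of_nonneg_right (hF Q0 hQ0).1 (by positivity)
    · intro Q hQ
      rw [Finset.mem_filter] at hQ
      obtain ⟨hQF, hG⟩ := hQ
      have h1 : I Q = I Q0 := congrArg Prod.fst hG
      have h2 : e Q = e Q0 := congrArg Prod.snd hG
      refine ⟨h1, fun v j => ?_, ?_⟩
      · refine (hle Q v j).trans ?_
        rw [← h2]
        exact (hpow Q v).1
      · have h3 : (Set.range fun j => (y Q j : K)) = (fun x => lam Q * x) '' Set.range Q.rep := by
          rw [← Set.range_comp]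
          congr 1
          funext j
          exact hy Q j
        have h4 := (hF Q hQF).2
        have h5 : (fun x => lam Q * x) = (LinearMap.mulLeft k (lam Q)) := rfl
        rw [h3, h5, Submodule.span_image, h4, Submodule.map_top, LinearMap.range_eq_top]
        intro x
        refine ⟨(lam Q)⁻¹ * x, ?_⟩
        show lam Q * ((lam Q)⁻¹ * x) = x
        rw [mul_inv_cancel_left₀ (hlam Q)]
  have hcard : (F.card : ℝ) ≤ (F.image G).card * R := by
    have h1 : F.card = ∑ g ∈ F.image G, (F.filter fun Q => G Q = g).card :=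
      Finset.card_eq_sum_card_image G F
    rw [h1]
    push_cast
    refine (Finset.sum_le_card_nsmul _ _ R hfib).trans (le_of_eq ?_)
    rw [nsmul_eq_mul]
  -- the number of the values
  have himg : F.image G ⊆ (F.image I) ×ˢ
      (Fintype.piFinset fun _ : InfinitePlace K => Finset.Icc (-N) N) := by
    intro g hg
    obtain ⟨Q, hQ, rfl⟩ := Finset.mem_image.1 hg
    rw [Finset.mem_product]
    exact ⟨Finset.mem_image_of_mem _ hQ, hcellmem Q hQ⟩
  have himg2 : ((F.image G).card : ℝ) ≤ (F.image I).card *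
      (Fintype.piFinset fun _ : InfinitePlace K => Finset.Icc (-N) N).card := by
    have := Finset.card_le_card himg
    rw [Finset.card_product] at this
    exact_mod_cast this
  have hideal : ((F.image I).card : ℝ) ≤ Real.exp (n * F0) * (q + 1) ^ (1 + ε / 2) := by
    have h1 := hid K (q + 1) (F.image I) (by linarith) (by
      intro J hJ
      obtain ⟨Q, hQ, rfl⟩ := Finset.mem_image.1 hJ
      exact ⟨hIne Q, hyN Q⟩)
    rw [hK] at h1
    exact h1
  have hN0 : 0 ≤ N := by
    rw [hN]
    have : 0 ≤ ⌈(n + 1) * Real.logb 2 U⌉ := Int.ceil_nonneg (by positivity)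
    omega
  have hcells : ((Fintype.piFinset fun _ : InfinitePlace K => Finset.Icc (-N) N).card : ℝ) ≤
      C1 * U ^ (ε / 2) := by
    refine le_trans ?_ (hcell U hU1)
    rw [Fintype.card_piFinset, Finset.prod_const, Int.card_Icc, Finset.card_univ]
    push_cast
    have h1 : (((N + 1 - -N).toNat : ℕ) : ℝ) = 2 * N + 1 := by
      have h2 : (((N + 1 - -N).toNat : ℕ) : ℤ) = 2 * N + 1 := by
        rw [Int.toNat_of_nonneg (by omega)]
        ring
      exact_mod_cast h2
    rw [h1]
    have hN0' : (0 : ℝ) ≤ N := by exact_mod_cast hN0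
    have h3 : Fintype.card (InfinitePlace K) ≤ n := by
      rw [← hK, ← InfinitePlace.sum_mult_eq (K := K)]
      calc Fintype.card (InfinitePlace K) = ∑ _v : InfinitePlace K, 1 := by simp
        _ ≤ _ := Finset.sum_le_sum fun v _ => InfinitePlace.mult_pos
    calc (2 * (N : ℝ) + 1) ^ Fintype.card (InfinitePlace K) ≤ (2 * (N : ℝ) + 1) ^ n :=
          pow_le_pow_right₀ (by linarith) h3
      _ ≤ (2 * ((n + 1) * Real.logb 2 U + 2) + 1) ^ n := by
          refine pow_le_pow_left₀ (by linarith) ?_ n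
          have h4 : (N : ℝ) ≤ (n + 1) * Real.logb 2 U + 2 := by
            rw [hN]
            push_cast
            have := Int.ceil_lt_add_one ((n + 1) * Real.logb 2 U)
            linarith
          linarith
  -- conclusion
  have hq2 : q + 1 ≤ 2 * q := by linarith
  calc (F.card : ℝ) ≤ (F.image G).card * R := hcard
    _ ≤ ((F.image I).card *
      (Fintype.piFinset fun _ : InfinitePlace K => Finset.Icc (-N) N).card) * R :=
        mul_le_mul_of_nonneg_right himg2 hR0
    _ ≤ ((Real.exp (n * F0) * (q + 1) ^ (1 + ε / 2)) * (C1 * U ^ (ε / 2))) * R := by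
        refine mul_le_mul_of_nonneg_right ?_ hR0
        exact mul_le_mul hideal hcells (Nat.cast_nonneg _) (by positivity)
    _ ≤ ((Real.exp (n * F0) * (2 * q) ^ (1 + ε / 2)) * (C1 * (2 * q * H ^ 2) ^ (ε / 2))) * R := by
        refine mul_le_mul_of_nonneg_right ?_ hR0
        have h1 : (q + 1) ^ (1 + ε / 2) ≤ (2 * q) ^ (1 + ε / 2) :=
          Real.rpow_le_rpow (by linarith) hq2 (by positivity)
        have h2 : U ^ (ε / 2) ≤ (2 * q * H ^ 2) ^ (ε / 2) :=
          Real.rpow_le_rpow hU0.le (mul_le_mul_of_nonneg_right hq2 (by positivity)) (by positivity)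
        exact mul_le_mul (mul_le_mul_of_nonneg_left h1 (Real.exp_pos _).le)
          (mul_le_mul_of_nonneg_left h2 (by linarith)) (by positivity) (by positivity)
    _ = _ := by
        rw [hR, Real.mul_rpow (by norm_num) hq0.le, Real.mul_rpow (by positivity) (by positivity),
          Real.mul_rpow (by norm_num) hq0.le, div_pow, mul_pow, ← Real.rpow_natCast H 2,
          ← Real.rpow_mul hH0.le]
        have e1 : H ^ ((m : ℝ) + 1 + ε) = H ^ (((2 : ℕ) : ℝ) * (ε / 2)) * H ^ (m + 1) := by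
          rw [← Real.rpow_natCast H (m + 1), ← Real.rpow_add hH0]
          congr 1
          push_cast
          ring
        have e2 : q ^ (ε - m) = q ^ (1 + ε / 2) * q ^ (ε / 2) / q ^ (m + 1) := by
          rw [← Real.rpow_natCast q (m + 1), ← Real.rpow_add hq0, ← Real.rpow_sub hq0]
          congr 1
          push_cast
          ring
        rw [e1, e2]
        ring

/-- the discriminant, if the coordinates of a point span the field -/
theorem disc_le (k : Type) [Field k] [NumberField k] {K : Type} [Field K] [NumberField K]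
    [Algebra k K] {n m : ℕ} (hK : finrank ℚ K = n) (Q : ℙ K (Fin (m + 1) → K))
    (hQ : Submodule.span k (Set.range Q.rep) = ⊤) :
    √|(discr K : ℝ)| ≤ (6 * ck k) ^ n * n.factorial * Q.mulHeight := by
  classical
  have hck := one_le_ck k
  have hrep := fun Q : ℙ K (Fin (m + 1) → K) => exists_rep (m + 1) Q.rep Q.rep_nonzero
  choose lam y hlam hy hyU hyN using hrep
  have hq0 : 0 < √|(discr K : ℝ)| := lt_of_lt_of_le one_pos one_le_sqrt
  have hyne : ∃ j, y Q j ≠ 0 := by
    obtain ⟨j, hj⟩ : ∃ j, Q.rep j ≠ 0 := Function.ne_iff.1 Q.rep_nonzero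
    refine ⟨j, fun h0 => ?_⟩
    have h1 := hy Q j
    rw [h0] at h1
    have h2 : lam Q * Q.rep j = 0 := by rw [← h1]; simp
    exact mul_ne_zero (hlam Q) hj h2
  have hyne' : y Q ≠ 0 := Function.ne_iff.2 hyne
  have hIne : Ideal.span (Set.range (y Q)) ≠ ⊥ := by
    intro h
    obtain ⟨j, hj⟩ := hyne
    apply hj
    have : y Q j ∈ Ideal.span (Set.range (y Q)) := Ideal.subset_span (Set.mem_range_self j)
    rw [h] at this
    exact this
  have hle : ∀ (v : InfinitePlace K) i, v (y Q i : K) ≤ ⨆ i, v (y Q i : K) := fun v i =>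
    le_ciSup (f := fun i => v (y Q i : K)) (Set.finite_range _).bddAbove i
  have hht : Q.mulHeight * Ideal.absNorm (Ideal.span (Set.range (y Q))) =
      ∏ v : InfinitePlace K, (⨆ i, v (y Q i : K)) ^ v.mult := by
    have h1 := mulHeight_int (y Q) hyne'
    rw [← h1]
    congr 1
    have h2 : (fun j => (y Q j : K)) = lam Q • Q.rep := funext fun j => hy Q j
    rw [h2, mulHeight_smul_eq_mulHeight _ (hlam Q), rep_height]
  have hmh1 : 1 ≤ Q.mulHeight := by
    rw [← rep_height]
    exact one_le_mulHeight _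
  have h1 := fibre_le k hK lam y hlam hy (Ideal.span (Set.range (y Q))) hIne
    (fun v => ⨆ i, v (y Q i : K)) (fun v => (apply_nonneg v _).trans (hle v 0)) (H := Q.mulHeight)
    (by
      rw [hht]
      exact le_mul_of_one_le_left (Finset.prod_nonneg fun v _ =>
        pow_nonneg ((apply_nonneg v _).trans (hle v 0)) _) (one_le_pow₀ (by norm_num)))
    (by linarith) {Q} (by
      intro Q' hQ'
      rw [Finset.mem_singleton] at hQ'
      rw [hQ']
      refine ⟨rfl, fun v j => hle v j, ?_⟩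
      have h3 : (Set.range fun j => (y Q j : K)) = (fun x => lam Q * x) '' Set.range Q.rep := by
        rw [← Set.range_comp]
        congr 1
        funext j
        exact hy Q j
      have h5 : (fun x => lam Q * x) = (LinearMap.mulLeft k (lam Q)) := rfl
      rw [h3, h5, Submodule.span_image, hQ, Submodule.map_top, LinearMap.range_eq_top]
      intro x
      refine ⟨(lam Q)⁻¹ * x, ?_⟩
      show lam Q * ((lam Q)⁻¹ * x) = x
      rw [mul_inv_cancel_left₀ (hlam Q)])
  rw [Finset.card_singleton, Nat.cast_one] at h1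
  by_contra hcon
  push Not at hcon
  have h2 : (6 * ck k) ^ n * n.factorial * Q.mulHeight / √|(discr K : ℝ)| < 1 := by
    rw [div_lt_one hq0]
    exact hcon
  have h3 : 0 ≤ (6 * ck k) ^ n * n.factorial * Q.mulHeight / √|(discr K : ℝ)| := by positivity
  exact absurd h1 (not_le.2 (pow_lt_one₀ h3 h2 (Nat.succ_ne_zero m)))

end Pool.Agent.N752.SU
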