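import Mathlib
import Pool.Agent.N752.SU.Main
import Pool.Agent.N752.Shelf.BoundedDegreeHyperplanes

/-!
The points of projective space whose coordinates span a field of given degree: the sum over all
fields.
-/

set_option autoImplicit false

namespace Pool.Agent.N752.SU

open NumberField Finset
open scoped LinearAlgebra.Projectivization
open Pool.Agent.Results.MP_44a246_nt.BoundedDegreeHyperplanes
  (height logDisc toC n_pos one_le_disc logDisc_nonneg)

variable {m : ℕ}

/-- the coordinates of the point `Q` over `K` span `K` over `k` -/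
def Spans {k K : IntermediateField ℚ ℂ} (h : k ≤ K) (Q : ℙ K (Fin (m + 1) → K)) : Prop :=
  letI : Algebra k K := (IntermediateField.inclusion h).toRingHom.toAlgebra
  Submodule.span k (Set.range Q.rep) = ⊤

open Pool.Agent.W223.VD (Flds FieldExp) in
/-- the sum over all fields of degree `n` -/
theorem slices (k : IntermediateField ℚ ℂ) [NumberField k] (hm : 1 ≤ m) (n : ℕ) (hn1 : 1 ≤ n)
    {α : ℝ} (hα1 : 1 ≤ α) (hF : FieldExp n α) (hmα : 2 * α ≤ m) (e₁ : ℝ) (he₁ : e₁ ≤ m + 1)
    (δ C₁ : ℝ) (hδ : 0 < δ) (hC₁ : 1 ≤ C₁)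
    (E : IntermediateField ℚ ℂ → ℝ → Set (ℙ ℂ (Fin (m + 1) → ℂ)))
    (hE1 : ∀ (K : IntermediateField ℚ ℂ) (_ : NumberField K), Module.finrank ℚ K = n →
      ∀ B : ℝ, 1 ≤ B → (E K B).Finite ∧ ((E K B).ncard : ℝ) ≤ C₁ * B ^ (n * e₁ + δ / 2))
    (hE2 : ∀ (K : IntermediateField ℚ ℂ) (_ : NumberField K), ∀ B : ℝ, ∀ P ∈ E K B,
      ∃ (h : k ≤ K) (Q : ℙ K (Fin (m + 1) → K)), toC Q = P ∧ Spans h Q ∧
        height Q ≤ Real.log B) :
    ∃ C : ℝ, ∀ B : ℝ, 1 ≤ B →
      {P | ∃ (K : IntermediateField ℚ ℂ) (_ : NumberField K), Module.finrank ℚ K = n ∧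
        P ∈ E K B}.Finite ∧
      ({P | ∃ (K : IntermediateField ℚ ℂ) (_ : NumberField K), Module.finrank ℚ K = n ∧
        P ∈ E K B}.ncard : ℝ) ≤
        C * B ^ ((n : ℝ) * (m + 1 - (1 - 2 * α / m) * (m + 1 - e₁)) + δ) := by
  classical
  obtain ⟨CF, hCF, hF⟩ := hF
  have hn0 : (0 : ℝ) < n := by exact_mod_cast (show 0 < n by omega)
  have hm0 : (0 : ℝ) < m := by exact_mod_cast (show 0 < m by omega)
  have hm1 : (1 : ℝ) ≤ m := by exact_mod_cast hm
  obtain ⟨J, hJ⟩ : ∃ J : ℕ, 4 * n * α / δ + 1 ≤ J := exists_nat_ge _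
  have hJ0 : (0 : ℝ) < J := by
    have : 0 ≤ 4 * n * α / δ := by positivity
    linarith
  have hJpos : 0 < J := by exact_mod_cast hJ0
  have hJδ : n * α * (2 / J) ≤ δ / 2 := by
    have h1 : 4 * n * α / δ ≤ J := by linarith
    rw [div_le_iff₀ hδ] at h1
    rw [mul_div_assoc', div_le_iff₀ hJ0]
    linarith
  set ε : ℝ := min (δ / (4 * n)) 1 with hε
  have hε0 : 0 < ε := lt_min (by positivity) one_pos
  have hε1 : ε ≤ 1 := min_le_right _ _
  have hεδ : 2 * n * ε ≤ δ / 2 := by
    have h1 : ε ≤ δ / (4 * n) := min_le_left _ _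
    calc 2 * n * ε ≤ 2 * n * (δ / (4 * n)) := mul_le_mul_of_nonneg_left h1 (by positivity)
      _ = δ / 2 := by field_simp; ring
  obtain ⟨C₂, hC₂, hpts⟩ := pts_card k n m hn1 hε0
  set c₀ : ℝ := 2 / n * Real.log ((6 * ck k) ^ n * n.factorial) with hc₀
  have hA1 : 1 ≤ (6 * ck k) ^ n * (n.factorial : ℝ) := by
    have h1 : (1 : ℝ) ≤ (6 * ck k) ^ n := one_le_pow₀ (by linarith [one_le_ck k])
    have h2 : (1 : ℝ) ≤ n.factorial := by
      exact_mod_cast Nat.one_le_iff_ne_zero.2 (Nat.factorial_ne_zero n)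
    exact one_le_mul_of_one_le_of_one_le h1 h2
  have hc₀0 : 0 ≤ c₀ := mul_nonneg (by positivity) (Real.log_nonneg hA1)
  have hfr : ∀ j : Fin J, 0 ≤ (j : ℝ) / J ∧ (j : ℝ) / J ≤ 1 ∧ ((j : ℝ) + 1) / J ≤ 1 := by
    intro j
    have h1 : (j : ℝ) + 1 ≤ J := by exact_mod_cast j.2
    refine ⟨by positivity, ?_, ?_⟩
    · rw [div_le_one hJ0]; linarith
    · rw [div_le_one hJ0]; exact h1
  set γ : ℝ := m + 1 - e₁ with hγ
  have hγ0 : 0 ≤ γ := by rw [hγ]; linarith
  -- the exponent for one field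
  let ex : Fin J → ℝ := fun j => if (j : ℝ) / J * 2 ≤ 2 * γ / m then n * e₁ + δ / 2 else
    n * (m + 1 + ε) - (m - ε) * (n * ((j : ℝ) / J))
  refine ⟨∑ j : Fin J, CF * Real.exp (n * c₀) ^ α * (C₁ + C₂), fun B hB => ?_⟩
  have hB0 : 0 < B := by linarith
  set L := Real.log B with hL
  have hL0 : 0 ≤ L := Real.log_nonneg hB
  let Y : Fin J → ℝ := fun j => Real.exp (n * c₀) * B ^ ((n : ℝ) * (((j : ℝ) + 1) / J * 2))
  have hT1 : ∀ j, 1 ≤ Y j := by
    intro j
    refine one_le_mul_of_one_le_of_one_le (Real.one_le_exp (by positivity))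
      (Real.one_le_rpow hB (by positivity))
  let W : Fin J → Finset (IntermediateField ℚ ℂ) := fun j =>
    (hF (Y j) (hT1 j)).1.toFinset.filter fun K => ∀ _ : NumberField K,
      B ^ ((n : ℝ) * ((j : ℝ) / J)) ≤ √|(NumberField.discr K : ℝ)|
  have hsub : {P | ∃ (K : IntermediateField ℚ ℂ) (_ : NumberField K), Module.finrank ℚ K = n ∧
      P ∈ E K B} ⊆ ⋃ j : Fin J, ⋃ K ∈ W j, E K B := by
    rintro P ⟨K, hK, hKn, hP⟩
    obtain ⟨h, Q, hQ, hsp, hh⟩ := hE2 K hK B P hP
    set t := logDisc K with ht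
    have ht0 : 0 ≤ t := logDisc_nonneg K
    have hexp : |(NumberField.discr K : ℝ)| = Real.exp (n * t) := by
      rw [ht]
      unfold logDisc
      rw [hKn, mul_div_cancel₀ _ hn0.ne', Real.exp_log]
      have := one_le_disc K
      linarith
    have htL : t ≤ 2 * L + c₀ := by
      let _ : Algebra k K := (IntermediateField.inclusion h).toRingHom.toAlgebra
      have h1 := disc_le k hKn Q hsp
      have hmh : 0 < Q.mulHeight := by
        rw [← rep_height]; exact Height.mulHeight_pos _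
      have h2 : √|(NumberField.discr K : ℝ)| = Real.exp (n * t / 2) := by
        rw [hexp, Real.sqrt_eq_rpow, ← Real.exp_mul]
        congr 1
        ring
      rw [h2] at h1
      have h3 := Real.log_le_log (Real.exp_pos _) h1
      rw [Real.log_exp, Real.log_mul (by linarith) hmh.ne'] at h3
      have h4 : Real.log Q.mulHeight ≤ n * L := by
        unfold height at hh
        rw [div_le_iff₀ (n_pos K), hKn] at hh
        linarith
      have h5 : Real.log ((6 * ck k) ^ n * n.factorial) = n * c₀ / 2 := by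
        rw [hc₀]; field_simp
      rw [h5] at h3
      have h6 : (n : ℝ) * t ≤ n * (2 * L + c₀) := by linarith
      exact le_of_mul_le_mul_left h6 hn0
    -- the index
    have hne : ((Finset.univ : Finset (Fin J)).filter fun j : Fin J =>
        (j : ℝ) / J * 2 * L ≤ t).Nonempty := by
      refine ⟨⟨0, hJpos⟩, ?_⟩
      rw [Finset.mem_filter]
      refine ⟨Finset.mem_univ _, ?_⟩
      simpa using ht0
    set j := ((Finset.univ : Finset (Fin J)).filter fun j : Fin J =>
        (j : ℝ) / J * 2 * L ≤ t).max' hne with hj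
    have hj1 : (j : ℝ) / J * 2 * L ≤ t := (Finset.mem_filter.1 (Finset.max'_mem _ hne)).2
    have hj2 : t ≤ ((j : ℝ) + 1) / J * 2 * L + c₀ := by
      rcases Nat.lt_or_ge ((j : ℕ) + 1) J with h1 | h1
      · have h2 : ¬ (((j : ℕ) + 1 : ℕ) : ℝ) / J * 2 * L ≤ t := by
          intro h3
          have h4 : (⟨(j : ℕ) + 1, h1⟩ : Fin J) ∈ ((Finset.univ : Finset (Fin J)).filter
              fun j : Fin J => (j : ℝ) / J * 2 * L ≤ t) :=
            Finset.mem_filter.2 ⟨Finset.mem_univ _, h3⟩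
          have h5 := Finset.le_max' _ _ h4
          rw [← hj] at h5
          have h6 : (j : ℕ) + 1 ≤ (j : ℕ) := h5
          omega
        push Not at h2
        push_cast at h2
        linarith
      · have h2 : (j : ℕ) + 1 = J := le_antisymm j.2 h1
        have h3 : ((j : ℝ) + 1) / J = 1 := by
          rw [div_eq_one_iff_eq hJ0.ne']
          exact_mod_cast h2
        rw [h3, one_mul]
        exact htL
    rw [Set.mem_iUnion]
    refine ⟨j, ?_⟩
    rw [Set.mem_iUnion₂]
    refine ⟨K, ?_, hP⟩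
    rw [Finset.mem_filter, Set.Finite.mem_toFinset]
    refine ⟨⟨hK, hKn, ?_⟩, ?_⟩
    · rw [hexp]
      show _ ≤ Real.exp (n * c₀) * B ^ ((n : ℝ) * (((j : ℝ) + 1) / J * 2))
      rw [Real.rpow_def_of_pos hB0, ← Real.exp_add]
      refine Real.exp_le_exp.2 ?_
      have := mul_le_mul_of_nonneg_left hj2 hn0.le
      rw [← hL]
      linarith
    · intro hK'
      have e1 : |(NumberField.discr K : ℝ)| = Real.exp (n * t) := by
        convert hexp
      rw [e1, Real.sqrt_eq_rpow, ← Real.exp_mul, Real.rpow_def_of_pos hB0]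
      refine Real.exp_le_exp.2 ?_
      have := mul_le_mul_of_nonneg_left hj1 hn0.le
      rw [← hL]
      linarith
  have hfinK : ∀ j : Fin J, ∀ K ∈ W j, (E K B).Finite ∧
        ((E K B).ncard : ℝ) ≤ (C₁ + C₂) * B ^ ex j := by
    intro j K hK
    rw [Finset.mem_filter, Set.Finite.mem_toFinset] at hK
    obtain ⟨⟨hK1, hK2, -⟩, hK3⟩ := hK
    obtain ⟨h1, h2⟩ := hE1 K hK1 hK2 B hB
    refine ⟨h1, ?_⟩
    by_cases hc : (j : ℝ) / J * 2 ≤ 2 * γ / m
    · have e1 : ex j = n * e₁ + δ / 2 := if_pos hc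
      rw [e1]
      refine h2.trans (mul_le_mul_of_nonneg_right (by linarith) (by positivity))
    · have e1 : ex j = n * (m + 1 + ε) - (m - ε) * (n * ((j : ℝ) / J)) := if_neg hc
      rw [e1]
      have hex : ∀ P : ℙ ℂ (Fin (m + 1) → ℂ), ∃ Q : ℙ K (Fin (m + 1) → K), P ∈ E K B →
          ∃ h : k ≤ K, toC Q = P ∧ Spans h Q ∧ height Q ≤ Real.log B := by
        intro P
        by_cases hP : P ∈ E K B
        · obtain ⟨h, Q, hQ⟩ := hE2 K hK1 B P hP
          exact ⟨Q, fun _ => ⟨h, hQ⟩⟩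
        · exact ⟨Projectivization.mk K (fun _ => 1) (by
            intro h0
            have := congrFun h0 0
            simp at this), fun h => absurd h hP⟩
      choose ψ hψ using hex
      rcases (E K B).eq_empty_or_nonempty with hemp | ⟨P0, hP0⟩
      · rw [hemp, Set.ncard_empty, Nat.cast_zero]
        positivity
      obtain ⟨hkK, -⟩ := hψ P0 hP0
      let _ : Algebra k K := (IntermediateField.inclusion hkK).toRingHom.toAlgebra
      have hBn : (1 : ℝ) ≤ B ^ n := one_le_pow₀ hB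
      have h3 := hpts K hK2 (B ^ n) hBn (h1.toFinset.image ψ) (by
        intro Q hQ
        obtain ⟨P, hP, rfl⟩ := Finset.mem_image.1 hQ
        rw [Set.Finite.mem_toFinset] at hP
        obtain ⟨h, h4, h5, h6⟩ := hψ P hP
        refine ⟨?_, h5⟩
        have hmh : 0 < (ψ P).mulHeight := by
          rw [← rep_height]; exact Height.mulHeight_pos _
        unfold height at h6
        rw [div_le_iff₀ (n_pos K), hK2] at h6
        have h7 : Real.log (ψ P).mulHeight ≤ Real.log (B ^ n) := by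
          rw [Real.log_pow]; linarith
        exact (Real.log_le_log_iff hmh (by positivity)).1 h7)
      have h4 : (E K B).ncard = (h1.toFinset.image ψ).card := by
        rw [Finset.card_image_of_injOn, Set.ncard_eq_toFinset_card _ h1]
        intro P hP P' hP' he
        rw [Finset.mem_coe, Set.Finite.mem_toFinset] at hP hP'
        obtain ⟨-, h5, -⟩ := hψ P hP
        obtain ⟨-, h6, -⟩ := hψ P' hP'
        rw [← h5, ← h6, he]
      rw [h4]
      refine h3.trans ?_
      have h5 : √|(NumberField.discr K : ℝ)| ^ (ε - m) ≤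
          (B ^ ((n : ℝ) * ((j : ℝ) / J))) ^ (ε - m) :=
        Real.rpow_le_rpow_of_nonpos (by positivity) (hK3 hK1) (by linarith)
      calc C₂ * (B ^ n) ^ ((m : ℝ) + 1 + ε) * √|(NumberField.discr K : ℝ)| ^ (ε - m)
          ≤ C₂ * (B ^ n) ^ ((m : ℝ) + 1 + ε) * (B ^ ((n : ℝ) * ((j : ℝ) / J))) ^ (ε - m) :=
            mul_le_mul_of_nonneg_left h5 (by positivity)
        _ = C₂ * B ^ (n * (m + 1 + ε) - (m - ε) * (n * ((j : ℝ) / J))) := by
            rw [← Real.rpow_natCast B n, ← Real.rpow_mul hB0.le, ← Real.rpow_mul hB0.le, mul_assoc,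
              ← Real.rpow_add hB0]
            congr 2
            ring
        _ ≤ _ := mul_le_mul_of_nonneg_right (by linarith) (by positivity)
  have hfin : (⋃ j : Fin J, ⋃ K ∈ W j, E K B).Finite :=
    Set.finite_iUnion fun j => Set.Finite.biUnion (Finset.finite_toSet _)
      fun K hK => (hfinK j K hK).1
  refine ⟨hfin.subset hsub, ?_⟩
  have h1 : ({P | ∃ (K : IntermediateField ℚ ℂ) (_ : NumberField K), Module.finrank ℚ K = n ∧
      P ∈ E K B}.ncard : ℝ) ≤ ∑ j : Fin J, ∑ K ∈ W j, ((E K B).ncard : ℝ) := by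
    have h2 := (Set.ncard_le_ncard hsub hfin).trans (Set.ncard_iUnion_le_of_fintype _)
    refine (Nat.cast_le.2 h2).trans ?_
    push_cast
    refine Finset.sum_le_sum fun j _ => ?_
    have := Finset.set_ncard_biUnion_le (W j) fun K => E K B
    exact_mod_cast this
  refine h1.trans ?_
  rw [Finset.sum_mul]
  refine Finset.sum_le_sum fun j _ => ?_
  obtain ⟨hj0, hj1, hj2⟩ := hfr j
  have hWc : ((W j).card : ℝ) ≤ CF * Y j ^ α := by
    refine le_trans ?_ (hF (Y j) (hT1 j)).2
    rw [Set.ncard_eq_toFinset_card _ (hF (Y j) (hT1 j)).1]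
    exact_mod_cast Finset.card_le_card (Finset.filter_subset _ _)
  calc ∑ K ∈ W j, ((E K B).ncard : ℝ)
      ≤ ∑ _K ∈ W j, (C₁ + C₂) * B ^ ex j := Finset.sum_le_sum fun K hK => (hfinK j K hK).2
    _ = ((W j).card : ℝ) * ((C₁ + C₂) * B ^ ex j) := by
        rw [Finset.sum_const, nsmul_eq_mul]
    _ ≤ (CF * Y j ^ α) * ((C₁ + C₂) * B ^ ex j) :=
        mul_le_mul_of_nonneg_right hWc (by positivity)
    _ = CF * Real.exp (n * c₀) ^ α * (C₁ + C₂) *
          (B ^ ((n : ℝ) * (((j : ℝ) + 1) / J * 2) * α) * B ^ ex j) := by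
        show (CF * (Real.exp (n * c₀) * B ^ ((n : ℝ) * (((j : ℝ) + 1) / J * 2))) ^ α) * _ = _
        rw [Real.mul_rpow (Real.exp_pos _).le (by positivity), ← Real.rpow_mul hB0.le]
        ring
    _ ≤ CF * Real.exp (n * c₀) ^ α * (C₁ + C₂) *
          B ^ ((n : ℝ) * (m + 1 - (1 - 2 * α / m) * (m + 1 - e₁)) + δ) := by
        refine mul_le_mul_of_nonneg_left ?_ (by positivity)
        rw [← Real.rpow_add hB0]
        refine Real.rpow_le_rpow_of_exponent_le hB ?_
        rw [← hγ]
        have e2 : ((j : ℝ) + 1) / J = (j : ℝ) / J + 1 / J := by ring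
        have e3 : (n : ℝ) * (((j : ℝ) + 1) / J * 2) * α =
            n * α * ((j : ℝ) / J * 2) + n * α * (2 / J) := by
          rw [e2]; ring
        rw [e3]
        have e4 : (n : ℝ) * (m + 1 - (1 - 2 * α / m) * γ) =
            n * (m + 1 - γ) + n * α * (2 * γ / m) := by
          field_simp
          ring
        by_cases hc : (j : ℝ) / J * 2 ≤ 2 * γ / m
        · have e1 : ex j = n * e₁ + δ / 2 := if_pos hc
          rw [e1, e4]
          have h2 : n * α * ((j : ℝ) / J * 2) ≤ n * α * (2 * γ / m) :=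
            mul_le_mul_of_nonneg_left hc (by positivity)
          have h3 : (m : ℝ) + 1 - γ = e₁ := by rw [hγ]; ring
          rw [h3]
          linarith
        · have e1 : ex j = n * (m + 1 + ε) - (m - ε) * (n * ((j : ℝ) / J)) := if_neg hc
          rw [e1]
          push Not at hc
          have h2 : (2 * γ / m) * (n * (m / 2 - α)) ≤ ((j : ℝ) / J * 2) * (n * (m / 2 - α)) :=
            mul_le_mul_of_nonneg_right hc.le (mul_nonneg hn0.le (by linarith))
          have h3 : (2 * γ / m) * (n * (m / 2 - α)) = n * ((1 - 2 * α / m) * γ) := by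
            field_simp
          rw [h3] at h2
          have h4 : ε * (n * ((j : ℝ) / J)) ≤ ε * (n * 1) :=
            mul_le_mul_of_nonneg_left (mul_le_mul_of_nonneg_left hj1 hn0.le) hε0.le
          nlinarith

end Pool.Agent.N752.SU
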