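import Mathlib
import Pool.Agent.N752.SU.Sum
import Pool.Agent.R366.NF.Cases

/-!
The points over a fixed field whose coordinates do not span the field are few.
-/

set_option autoImplicit false

namespace Pool.Agent.N752.SU

open NumberField Finset Module
open scoped LinearAlgebra.Projectivization
open Pool.Agent.R366.NF (Idx sz)

/-- the points whose integral coordinates are zeros of a polynomial -/
lemma pts_zero (F : Type) [Field F] [NumberField F] (m : ℕ)
    (f : MvPolynomial (Fin (m + 1) × Idx F) ℤ) (hf : f ≠ 0) (Z : Set (ℙ F (Fin (m + 1) → F)))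
    (hZ : ∀ Q ∈ Z, ∀ (t : F) (y : Fin (m + 1) → 𝓞 F), t ≠ 0 → (∀ j, (y j : F) = t * Q.rep j) →
      MvPolynomial.eval (fun p => (RingOfIntegers.basis F).repr (y p.1) p.2) f = 0) :
    ∃ C : ℝ, 0 ≤ C ∧ ∀ B : ℝ, 1 ≤ B →
    {Q : ℙ F (Fin (m + 1) → F) | Q ∈ Z ∧ Q.mulHeight ≤ B ^ Module.finrank ℚ F}.Finite ∧
    ({Q : ℙ F (Fin (m + 1) → F) | Q ∈ Z ∧ Q.mulHeight ≤ B ^ Module.finrank ℚ F}.ncard : ℝ) ≤
      C * B ^ ((Module.finrank ℚ F : ℝ) * (m + 1) - 1) := by
  classical
  obtain ⟨A, hA, hcoord⟩ := Pool.Agent.R366.NF.coord_le F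
  obtain ⟨C0, M, hC0, hrep⟩ := Pool.Agent.R366.NF.rep' F (n := m)
  set d := Module.finrank ℚ F with hd
  have hd0 : 0 < d := Module.finrank_pos
  have hd0' : (0 : ℝ) < d := by exact_mod_cast hd0
  have h1 : ∀ Q : ℙ F (Fin (m + 1) → F), ∃ (t : F) (y : Fin (m + 1) → 𝓞 F), t ≠ 0 ∧
      (∀ j, ((y j : 𝓞 F) : F) = t * Q.rep j) ∧
      ∀ (w : InfinitePlace F) (j : Fin (m + 1)), w ((y j : 𝓞 F) : F) ≤
        C0 * Q.mulHeight ^ (1 / (d : ℝ)) := by
    intro Q
    obtain ⟨t, ht, y, hy, hw, -⟩ := hrep Q.rep Q.rep_nonzero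
    refine ⟨t, y, ht, hy, ?_⟩
    rw [← rep_height]
    exact hw
  choose t y ht hy hw using h1
  set C1 : ℝ := A * C0 with hC1
  have hC1p : 0 < C1 := by positivity
  obtain ⟨D, hD⟩ : ∃ D : ℕ, D + 1 = d * (m + 1) :=
    ⟨d * (m + 1) - 1, Nat.sub_add_cancel (Nat.succ_le_of_lt (by positivity))⟩
  let ι := Fin (m + 1) × Idx F
  have hcι : Fintype.card ι = D + 1 := by
    rw [hD, Fintype.card_prod, Fintype.card_fin, Pool.Agent.R366.NF.card_idx, mul_comm]
  let e : ι ≃ Fin (D + 1) := Fintype.equivFinOfCardEq hcι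
  set f' : MvPolynomial (Fin (D + 1)) ℤ := MvPolynomial.rename e f with hf'
  have hf'0 : f' ≠ 0 := by
    intro h0
    apply hf
    apply MvPolynomial.rename_injective e e.injective
    rw [map_zero]
    exact h0
  refine ⟨f'.totalDegree * (2 * C1 + 1) ^ D, by positivity, fun B hB => ?_⟩
  have hB0 : 0 < B := by linarith
  set N : ℕ := ⌊C1 * B⌋₊ with hN
  have hNle : (N : ℝ) ≤ C1 * B := Nat.floor_le (by positivity)
  set S : Finset ℤ := Finset.Icc (-(N : ℤ)) N with hS
  let φ : ℙ F (Fin (m + 1) → F) → (Fin (D + 1) → ℤ) := fun Q i =>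
    (RingOfIntegers.basis F).repr (y Q (e.symm i).1) (e.symm i).2
  set Zs : Set (ℙ F (Fin (m + 1) → F)) := {Q | Q ∈ Z ∧ Q.mulHeight ≤ B ^ d} with hZs
  set box : Finset (Fin (D + 1) → ℤ) :=
    (Pool.Agent.R366.NF.sbox (D + 1) S).filter fun x => MvPolynomial.eval x f' = 0 with hbox
  have hmaps : ∀ Q ∈ Zs, φ Q ∈ (box : Set (Fin (D + 1) → ℤ)) := by
    rintro Q ⟨hQZ, hQ'⟩
    rw [Finset.mem_coe, hbox, Finset.mem_filter]
    refine ⟨?_, ?_⟩
    · unfold Pool.Agent.R366.NF.sbox
      rw [Fintype.mem_piFinset]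
      intro i
      set p := e.symm i with hp
      have hpos : 0 ≤ Q.mulHeight := by
        rw [← rep_height]; exact (Height.mulHeight_pos _).le
      have e1 : Q.mulHeight ^ (1 / (d : ℝ)) ≤ B := by
        calc Q.mulHeight ^ (1 / (d : ℝ)) ≤ (B ^ d) ^ (1 / (d : ℝ)) :=
              Real.rpow_le_rpow hpos hQ' (by positivity)
          _ = B := by
              rw [← Real.rpow_natCast, ← Real.rpow_mul hB0.le, mul_one_div_cancel hd0'.ne',
                Real.rpow_one]
      have e2 := hcoord (y Q p.1) (C0 * B) (by positivity) (fun w =>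
        (hw Q w p.1).trans (mul_le_mul_of_nonneg_left e1 hC0.le)) p.2
      have e3 : |φ Q i| ≤ (N : ℤ) := by
        have e4 : ((|φ Q i| : ℤ) : ℝ) ≤ C1 * B := by
          push_cast
          refine e2.trans (le_of_eq ?_)
          rw [hC1]; ring
        have e5 : (|φ Q i|).toNat ≤ N := Nat.le_floor (by
          have : (((|φ Q i|).toNat : ℕ) : ℝ) = ((|φ Q i| : ℤ) : ℝ) := by
            have h0 : (((|φ Q i|).toNat : ℕ) : ℤ) = |φ Q i| := Int.toNat_of_nonneg (abs_nonneg _)
            exact_mod_cast h0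
          rw [this]; exact e4)
        have h0 : (((|φ Q i|).toNat : ℕ) : ℤ) = |φ Q i| := Int.toNat_of_nonneg (abs_nonneg _)
        omega
      rw [hS, Finset.mem_Icc]
      exact abs_le.1 e3
    · rw [hf', MvPolynomial.eval_rename]
      have h2 := hZ Q hQZ (t Q) (y Q) (ht Q) (hy Q)
      have h3 : φ Q ∘ e = fun p : ι => (RingOfIntegers.basis F).repr (y Q p.1) p.2 := by
        funext p
        show (RingOfIntegers.basis F).repr (y Q (e.symm (e p)).1) (e.symm (e p)).2 = _
        rw [Equiv.symm_apply_apply]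
      rw [h3]
      exact h2
  have hinj : Set.InjOn φ Zs := by
    intro Q _ Q' _ h
    have e1 : ∀ j, y Q j = y Q' j := by
      intro j
      apply (RingOfIntegers.basis F).repr.injective
      ext l
      have := congrFun h (e (j, l))
      show (RingOfIntegers.basis F).repr (y Q j) l = (RingOfIntegers.basis F).repr (y Q' j) l
      have e2 : ∀ Q'' : ℙ F (Fin (m + 1) → F), φ Q'' (e (j, l)) =
          (RingOfIntegers.basis F).repr (y Q'' j) l := by
        intro Q''
        show (RingOfIntegers.basis F).repr (y Q'' (e.symm (e (j, l))).1) (e.symm (e (j, l))).2 = _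
        rw [Equiv.symm_apply_apply]
      rw [e2, e2] at this
      exact this
    refine eq_of_lam (ht Q) (l' := t Q') fun i => ?_
    rw [← hy, ← hy, e1 i]
  have hfin : Zs.Finite :=
    Set.Finite.of_finite_image ((Finset.finite_toSet box).subset (by
      rintro _ ⟨Q, hQ, rfl⟩; exact hmaps Q hQ)) hinj
  refine ⟨hfin, ?_⟩
  have hcard : (Zs.ncard : ℝ) ≤ (box.card : ℝ) := by
    have := Set.ncard_le_ncard_of_injOn φ hmaps hinj (Finset.finite_toSet box)
    rw [Set.ncard_coe_finset] at this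
    exact_mod_cast this
  have hSne : S.Nonempty := ⟨0, by rw [hS, Finset.mem_Icc]; constructor <;> omega⟩
  have hbc : (box.card : ℝ) ≤ f'.totalDegree * (S.card : ℝ) ^ D := by
    exact_mod_cast sz f' hf'0 S hSne
  have hSc : (S.card : ℝ) = 2 * N + 1 := by
    have : S.card = 2 * N + 1 := by
      rw [hS, Int.card_Icc]; omega
    rw [this]; push_cast; rfl
  rw [hSc] at hbc
  refine (hcard.trans hbc).trans ?_
  have e5 : B ^ ((d : ℝ) * (m + 1) - 1) = B ^ D := by
    rw [← Real.rpow_natCast]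
    congr 1
    have : ((D : ℝ) + 1) = d * (m + 1) := by exact_mod_cast hD
    linarith
  rw [e5, mul_assoc, ← mul_pow]
  refine mul_le_mul_of_nonneg_left (pow_le_pow_left₀ (by positivity) ?_ _) (Nat.cast_nonneg _)
  nlinarith

section span

variable {k K : Type} [Field k] [NumberField k] [Field K] [NumberField K] [Algebra k K]

/-- if the products are a basis then the coordinates span -/
lemma span_of_dt {m r : ℕ} (y : Fin (m + 1) → 𝓞 K) (hr : r ≤ m + 1)
    (σ : Free.ChooseBasisIndex ℤ (𝓞 K) ≃ Free.ChooseBasisIndex ℤ (𝓞 k) × Fin r)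
    (h : dt (fun c => algebraMap (𝓞 k) (𝓞 K) (RingOfIntegers.basis k (σ c).1) *
      y (Fin.castLE hr (σ c).2)) ≠ 0) :
    Submodule.span k (Set.range fun j => (y j : K)) = ⊤ := by
  classical
  have hcard : Fintype.card (Free.ChooseBasisIndex ℤ (𝓞 K)) = finrank ℚ K := by
    rw [← RingOfIntegers.rank K, finrank_eq_card_chooseBasisIndex]
  have h1 := li_of_dt h
  have h2 := h1.span_eq_top_of_card_eq_finrank' hcard
  rw [eq_top_iff]
  intro x _
  have hx : x ∈ Submodule.span ℚ (Set.range fun c =>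
      ((algebraMap (𝓞 k) (𝓞 K) (RingOfIntegers.basis k (σ c).1) *
        y (Fin.castLE hr (σ c).2) : 𝓞 K) : K)) := by
    rw [h2]; trivial
  have h3 : Submodule.span ℚ (Set.range fun c =>
      ((algebraMap (𝓞 k) (𝓞 K) (RingOfIntegers.basis k (σ c).1) *
        y (Fin.castLE hr (σ c).2) : 𝓞 K) : K)) ≤
      (Submodule.span k (Set.range fun j => (y j : K))).restrictScalars ℚ := by
    rw [Submodule.span_le]
    rintro _ ⟨c, rfl⟩
    have e : ((algebraMap (𝓞 k) (𝓞 K) (RingOfIntegers.basis k (σ c).1) *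
        y (Fin.castLE hr (σ c).2) : 𝓞 K) : K) =
        (RingOfIntegers.basis k (σ c).1 : k) • (y (Fin.castLE hr (σ c).2) : K) := by
      show algebraMap (𝓞 K) K (algebraMap (𝓞 k) (𝓞 K) (RingOfIntegers.basis k (σ c).1) *
        y (Fin.castLE hr (σ c).2)) = _
      rw [map_mul, Algebra.smul_def]
      rfl
    show ((algebraMap (𝓞 k) (𝓞 K) (RingOfIntegers.basis k (σ c).1) *
        y (Fin.castLE hr (σ c).2) : 𝓞 K) : K) ∈ Submodule.span k (Set.range fun j => (y j : K))
    rw [e]
    exact Submodule.smul_mem _ _ (Submodule.subset_span ⟨_, rfl⟩)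
  exact h3 hx

/-- the polynomial -/
theorem exists_poly {m r : ℕ} (hr : r ≤ m + 1) (hK : finrank ℚ K = r * finrank ℚ k) :
    ∃ f : MvPolynomial (Fin (m + 1) × Idx K) ℤ, f ≠ 0 ∧ ∀ y : Fin (m + 1) → 𝓞 K,
      Submodule.span k (Set.range fun j => (y j : K)) ≠ ⊤ →
      MvPolynomial.eval (fun p => (RingOfIntegers.basis K).repr (y p.1) p.2) f = 0 := by
  classical
  have hck : Fintype.card (Free.ChooseBasisIndex ℤ (𝓞 K)) =
      Fintype.card (Free.ChooseBasisIndex ℤ (𝓞 k) × Fin r) := by
    rw [Fintype.card_prod, Fintype.card_fin, ← finrank_eq_card_chooseBasisIndex,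
      ← finrank_eq_card_chooseBasisIndex, RingOfIntegers.rank, RingOfIntegers.rank, hK, mul_comm]
  let σ : Free.ChooseBasisIndex ℤ (𝓞 K) ≃ Free.ChooseBasisIndex ℤ (𝓞 k) × Fin r :=
    Fintype.equivOfCardEq hck
  let w : Free.ChooseBasisIndex ℤ (𝓞 K) → 𝓞 K := fun c =>
    algebraMap (𝓞 k) (𝓞 K) (RingOfIntegers.basis k (σ c).1)
  let Mx : Matrix (Free.ChooseBasisIndex ℤ (𝓞 K)) (Free.ChooseBasisIndex ℤ (𝓞 K))
      (MvPolynomial (Fin (m + 1) × Idx K) ℤ) := fun l' c =>
    ∑ l : Idx K, MvPolynomial.C ((RingOfIntegers.basis K).repr (w c * RingOfIntegers.basis K l) l') *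
      MvPolynomial.X (Fin.castLE hr (σ c).2, l)
  have heval : ∀ y : Fin (m + 1) → 𝓞 K,
      MvPolynomial.eval (fun p => (RingOfIntegers.basis K).repr (y p.1) p.2) Mx.det =
        dt (fun c => w c * y (Fin.castLE hr (σ c).2)) := by
    intro y
    rw [RingHom.map_det]
    unfold dt
    rw [Basis.det_apply]
    congr 1
    ext l' c
    rw [RingHom.mapMatrix_apply, Matrix.map_apply, Basis.toMatrix_apply]
    show MvPolynomial.eval _ (∑ l : Idx K, _) = _
    rw [map_sum]
    have h1 := (RingOfIntegers.basis K).sum_repr (y (Fin.castLE hr (σ c).2))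
    conv_rhs => rw [← h1]
    rw [Finset.mul_sum, map_sum, Finsupp.finsetSum_apply]
    refine Finset.sum_congr rfl fun l _ => ?_
    rw [map_mul, MvPolynomial.eval_C, MvPolynomial.eval_X, mul_smul_comm, map_smul,
      Finsupp.smul_apply, smul_eq_mul, mul_comm]
  refine ⟨Mx.det, ?_, fun y hy => ?_⟩
  · -- it is not zero
    have hk0 : 0 < finrank ℚ k := finrank_pos
    have hfr : finrank ℚ k * finrank k K = finrank ℚ K := finrank_mul_finrank ℚ k K
    have hrK : finrank k K = r := by
      rw [hK, mul_comm] at hfr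
      exact Nat.eq_of_mul_eq_mul_right hk0 hfr
    have hfd : FiniteDimensional k K := FiniteDimensional.right ℚ k K
    let β : Basis (Fin r) k K := finBasisOfFinrankEq k K hrK
    obtain ⟨⟨d, hd⟩, hdx⟩ := IsLocalization.exist_integer_multiples_of_finite
      (nonZeroDivisors (𝓞 K)) (fun j => β j)
    choose u hu using hdx
    have hd0 : d ≠ 0 := nonZeroDivisors.ne_zero hd
    have hdK : (d : K) ≠ 0 := RingOfIntegers.coe_ne_zero_iff.2 hd0
    have hu' : ∀ j, (u j : K) = (d : K) * β j := by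
      intro j
      have := hu j
      rw [Algebra.smul_def] at this
      exact this
    let y : Fin (m + 1) → 𝓞 K := fun j => if h : (j : ℕ) < r then u ⟨j, h⟩ else 0
    have hy : ∀ j : Fin r, y (Fin.castLE hr j) = u j := by
      intro j
      show (if h : ((Fin.castLE hr j : Fin (m + 1)) : ℕ) < r then u ⟨_, h⟩ else 0) = u j
      rw [dif_pos (by simp)]
      rfl
    intro h0
    have h1 := heval y
    rw [h0, map_zero] at h1
    refine dt_ne_zero ?_ h1.symm
    -- linear independence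
    have hli : LinearIndependent ℚ fun p : Free.ChooseBasisIndex ℤ (𝓞 k) × Fin r =>
        (integralBasis k p.1 : k) • (β p.2 : K) := by
      have h2 := ((integralBasis k).smulTower β).linearIndependent
      convert h2 using 1
      funext p
      rw [Basis.smulTower_apply]
    have hli2 := (hli.comp σ σ.injective).map' (LinearMap.mulLeft ℚ (d : K)) (by
      rw [LinearMap.ker_eq_bot]
      intro a b hab
      exact mul_left_cancel₀ hdK hab)
    have hfun : (fun c => ((w c * y (Fin.castLE hr (σ c).2) : 𝓞 K) : K)) =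
        (LinearMap.mulLeft ℚ (d : K)) ∘ (fun p : Free.ChooseBasisIndex ℤ (𝓞 k) × Fin r =>
          (integralBasis k p.1 : k) • (β p.2 : K)) ∘ σ := by
      funext c
      symm
      show (d : K) * ((integralBasis k (σ c).1 : k) • (β (σ c).2 : K)) =
        algebraMap (𝓞 K) K (algebraMap (𝓞 k) (𝓞 K) (RingOfIntegers.basis k (σ c).1) *
          y (Fin.castLE hr (σ c).2))
      rw [map_mul, hy, integralBasis_apply, Algebra.smul_def]
      show _ = algebraMap k K (RingOfIntegers.basis k (σ c).1 : k) * (u (σ c).2 : K)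
      rw [hu']
      show (d : K) * (algebraMap k K (RingOfIntegers.basis k (σ c).1 : k) * β (σ c).2) = _
      ring
    rw [hfun]
    exact hli2
  · rw [heval]
    by_contra h
    exact hy (span_of_dt y hr σ h)

end span

end Pool.Agent.N752.SU
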