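import Mathlib
import Pool.Agent.N752.SU.Deg

/-!
A lower bound for the number of the points of degree `r` over `k` whose coordinates span a space of
dimension `r` over `k`.
-/

set_option autoImplicit false

namespace Pool.Agent.N752.SU

open NumberField Finset Module
open scoped LinearAlgebra.Projectivization
open Pool.Agent.Results.MP_44a246_nt.BoundedDegreeHyperplanes
  (height value logDisc liftTo toC fieldOf Points rep_toC n_pos one_le_disc toC_inj ratio_mem
    fieldOf_le)

variable {m : ℕ}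

/-- the dimension over `k` of the space spanned by the coordinates -/
noncomputable def spanDim (k : IntermediateField ℚ ℂ) (P : ℙ ℂ (Fin (m + 1) → ℂ)) : ℕ :=
  Module.finrank k (Submodule.span k (Set.range P.rep))

/-- the dimension, for a point over `K` -/
lemma spanDim_toC {k K : IntermediateField ℚ ℂ} (h : k ≤ K) (Q : ℙ K (Fin (m + 1) → K)) :
    letI : Algebra k K := (IntermediateField.inclusion h).toRingHom.toAlgebra
    spanDim k (toC Q) = Module.finrank k (Submodule.span k (Set.range Q.rep)) := by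
  letI : Algebra k K := (IntermediateField.inclusion h).toRingHom.toAlgebra
  obtain ⟨b, hb, hr⟩ := rep_toC Q
  let φ : K →ₗ[k] ℂ :=
    { toFun := fun x => b * (x : ℂ)
      map_add' := fun x y => by push_cast; ring
      map_smul' := fun c x => by
        show b * ((IntermediateField.inclusion h c * x : K) : ℂ) = (c : ℂ) * (b * (x : ℂ))
        push_cast
        have : ((IntermediateField.inclusion h c : K) : ℂ) = (c : ℂ) := rfl
        rw [this]
        ring }
  have hφ : Function.Injective φ := by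
    intro x y hxy
    have h1 : b * (x : ℂ) = b * (y : ℂ) := hxy
    exact Subtype.ext (mul_left_cancel₀ hb h1)
  have e1 : Set.range (toC Q).rep = φ '' Set.range Q.rep := by
    rw [← Set.range_comp]
    congr 1
    funext i
    exact hr i
  unfold spanDim
  rw [e1, Submodule.span_image]
  exact (Submodule.equivMapOfInjective φ hφ _).symm.finrank_eq

lemma spans_iff {k K : IntermediateField ℚ ℂ} [NumberField k] [NumberField K] (h : k ≤ K) {r : ℕ}
    (hK : Module.finrank ℚ K = r * Module.finrank ℚ k) (Q : ℙ K (Fin (m + 1) → K)) :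
    Spans h Q ↔ spanDim k (toC Q) = r := by
  letI : Algebra k K := (IntermediateField.inclusion h).toRingHom.toAlgebra
  have hst : IsScalarTower ℚ k K := IsScalarTower.of_algebraMap_eq fun x => by
    apply Subtype.ext
    show ((algebraMap ℚ K x : K) : ℂ) = ((algebraMap ℚ k x : k) : ℂ)
    simp
  have hfd : FiniteDimensional k K := FiniteDimensional.right ℚ k K
  have hfr : Module.finrank ℚ k * Module.finrank k K = Module.finrank ℚ K :=
    Module.finrank_mul_finrank ℚ k K
  have hrK : Module.finrank k K = r := by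
    rw [hK, mul_comm] at hfr
    exact Nat.eq_of_mul_eq_mul_right Module.finrank_pos hfr
  rw [spanDim_toC h Q]
  constructor
  · intro h1
    have h2 : Submodule.span k (Set.range Q.rep) = ⊤ := h1
    rw [h2, finrank_top, hrK]
  · intro h1
    show Submodule.span k (Set.range Q.rep) = ⊤
    apply Submodule.eq_top_of_finrank_eq
    rw [h1, hrK]

/-- the field of definition -/
lemma fieldOf_of_spans {k K : IntermediateField ℚ ℂ} (h : k ≤ K) (Q : ℙ K (Fin (m + 1) → K))
    (hQ : Spans h Q) : fieldOf k (toC Q) = K := by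
  letI : Algebra k K := (IntermediateField.inclusion h).toRingHom.toAlgebra
  refine le_antisymm (fieldOf_le h Q) fun x hx => ?_
  obtain ⟨j, hj⟩ := Function.ne_iff.mp Q.rep_nonzero
  have hj' : Q.rep j ≠ 0 := hj
  have hjC : ((Q.rep j : K) : ℂ) ≠ 0 := by
    intro h0
    exact hj' (by exact_mod_cast h0)
  have h1 : (⟨x, hx⟩ : K) * Q.rep j ∈ Submodule.span k (Set.range Q.rep) := by
    have h2 : Submodule.span k (Set.range Q.rep) = ⊤ := hQ
    rw [h2]
    trivial
  rw [Submodule.mem_span_range_iff_exists_fun] at h1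
  obtain ⟨c, hc⟩ := h1
  have h2 : x = ∑ i, (c i : ℂ) * (((Q.rep i : K) : ℂ) / ((Q.rep j : K) : ℂ)) := by
    have h3 : ((∑ i, c i • Q.rep i : K) : ℂ) = (((⟨x, hx⟩ : K) * Q.rep j : K) : ℂ) :=
      congrArg (fun z : K => (z : ℂ)) hc
    have h4 : (((∑ i, c i • Q.rep i : K)) : ℂ) = ∑ i, (c i : ℂ) * ((Q.rep i : K) : ℂ) := by
      have h5 : ((∑ i, c i • Q.rep i : K) : ℂ) = ∑ i, ((c i • Q.rep i : K) : ℂ) := by
        exact map_sum (algebraMap K ℂ) _ _
      rw [h5]
      refine Finset.sum_congr rfl fun i _ => ?_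
      show ((IntermediateField.inclusion h (c i) * Q.rep i : K) : ℂ) = _
      push_cast
      rfl
    rw [h4] at h3
    push_cast at h3
    simp only [mul_div_assoc']
    rw [← Finset.sum_div, eq_div_iff hjC]
    exact h3.symm
  rw [h2]
  refine sum_mem fun i _ => mul_mem ?_ (ratio_mem k Q hj')
  exact (le_sup_left : k ≤ fieldOf k (toC Q)) (c i).2

open Pool.Agent.N752.RD Pool.Agent.Results.MP_9ec3f0_nt in
/-- the lower bound -/
theorem lowN {q : ℕ} (k : IntermediateField ℚ ℂ) [NumberField k] (hm : 1 ≤ m) (hq : m + 1 ≤ q)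
    (a : Fin q → Fin (m + 1) → k)
    (ha : ∀ I : Finset (Fin q), I.card = m + 1 → LinearIndependent k (fun i : I => a i))
    (r n : ℕ) (hn : n = r * Module.finrank ℚ k) (hr : 1 ≤ r) (hrm : r ≤ m + 1) (δ : ℝ)
    (hδ : 0 < δ) :
    ∃ c B₀ : ℝ, 0 < c ∧ ∀ B : ℝ, B₀ ≤ B → ∃ F : Finset (ℙ ℂ (Fin (m + 1) → ℂ)),
      (F : Set (ℙ ℂ (Fin (m + 1) → ℂ))) ⊆ {P | P ∈ Points k a r B ∧ spanDim k P = r} ∧
      c * B ^ ((n : ℝ) * (m + 1) - δ) ≤ (F.card : ℝ) := by
  classical
  obtain ⟨K, hK, hkK, hdeg⟩ := exists_ext k r hr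
  have hfrK : Module.finrank ℚ K = n := by rw [hdeg, hn]
  have hn0 : 0 < n := by rw [← hfrK]; exact Module.finrank_pos
  have hn0' : (0 : ℝ) < n := by exact_mod_cast hn0
  let _ : Algebra k K := (IntermediateField.inclusion hkK).toRingHom.toAlgebra
  set δ1 : ℝ := min δ (1 / 2) with hδ1
  have hδ1p : 0 < δ1 := lt_min hδ (by norm_num)
  have hδ1δ : δ1 ≤ δ := min_le_left _ _
  have hδ1h : δ1 ≤ 1 / 2 := min_le_right _ _
  obtain ⟨-, h2⟩ := AllFieldsAllDegrees.result k m q hm hq a ha
  obtain ⟨C, hC, hlow⟩ := h2 (δ1 / n) (by positivity)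
  obtain ⟨h1, -⟩ := AllFieldsAllDegrees.result k m q hm hq a ha
  have hq0 : (0 : ℝ) < q := by
    have : 0 < q := by omega
    exact_mod_cast this
  obtain ⟨-, C', -, h1'⟩ := h1 0 0 1 (le_refl _) hq0 one_pos
  -- the degenerate points
  obtain ⟨f, hf0, hf⟩ := exists_poly (k := k) (K := K) hrm hdeg
  obtain ⟨C2, hC20, hC2⟩ := pts_zero K m f hf0
    {Q | Submodule.span k (Set.range Q.rep) ≠ ⊤} (by
      intro Q hQ t y ht hy
      refine hf y fun htop => hQ ?_
      have h3 : (Set.range fun j => (y j : K)) = (fun x => t * x) '' Set.range Q.rep := by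
        rw [← Set.range_comp]
        congr 1
        funext j
        exact hy j
      have h5 : (fun x => t * x) = (LinearMap.mulLeft k t) := rfl
      rw [h3, h5, Submodule.span_image] at htop
      have hinj : Function.Injective (LinearMap.mulLeft k t) := by
        intro a b hab
        have hab' : t * a = t * b := hab
        exact mul_left_cancel₀ ht hab'
      have hsur : Function.Surjective (LinearMap.mulLeft k t) := by
        intro x
        refine ⟨t⁻¹ * x, ?_⟩
        show t * (t⁻¹ * x) = x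
        rw [mul_inv_cancel_left₀ ht]
      have h6 : Submodule.map (LinearMap.mulLeft k t) ⊤ = ⊤ := by
        rw [Submodule.map_top, LinearMap.range_eq_top]
        exact hsur
      rw [← h6] at htop
      exact Submodule.map_injective_of_injective hinj htop)
  set e : ℝ := (m : ℝ) + 1 - δ1 / n with he
  set R : ℝ := AllFieldsAllDegrees.rootDisc K ^ (-(((m : ℝ) + 3) / 2 + δ1 / n)) with hR
  have hrd : 0 < AllFieldsAllDegrees.rootDisc K := by
    unfold AllFieldsAllDegrees.rootDisc
    have := one_le_disc K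
    positivity
  set c1 : ℝ := (C⁻¹ * R) ^ n with hc1
  have hR0 : 0 < R := by positivity
  have hc10 : 0 < c1 := by positivity
  refine ⟨c1 / 2, max (max 1 (C * AllFieldsAllDegrees.rootDisc K ^ 2)) ((2 * C2 / c1) ^ 2),
    by positivity, fun B hB => ?_⟩
  have hB1 : 1 ≤ B := (le_max_left _ _).trans ((le_max_left _ _).trans hB)
  have hBd : C * AllFieldsAllDegrees.rootDisc K ^ 2 ≤ B :=
    (le_max_right _ _).trans ((le_max_left _ _).trans hB)
  have hBc : (2 * C2 / c1) ^ 2 ≤ B := (le_max_right _ _).trans hB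
  have hB0 : 0 < B := by linarith
  obtain ⟨hPfin, -⟩ := h1' K B hB1
  have hlow' := hlow K B hBd
  set Pt := AllFieldsAllDegrees.Pts K a B with hPt
  have hlow2 : c1 * B ^ ((n : ℝ) * (m + 1) - δ1) ≤ (Pt.ncard : ℝ) := by
    refine le_trans (le_of_eq ?_) hlow'
    rw [hfrK, hc1, mul_right_comm, mul_pow (C⁻¹ * R), ← Real.rpow_natCast (B ^ e),
      ← Real.rpow_mul hB0.le]
    congr 2
    rw [he]
    field_simp
  set good : Set (ℙ K (Fin (m + 1) → K)) := {Q | Q ∈ Pt ∧ Spans hkK Q} with hgood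
  have hgfin : good.Finite := hPfin.subset fun Q hQ => hQ.1
  have hcover : Pt ⊆ good ∪ {Q | Q ∈ {Q : ℙ K (Fin (m + 1) → K) |
      Submodule.span k (Set.range Q.rep) ≠ ⊤} ∧ Q.mulHeight ≤ B ^ Module.finrank ℚ K} := by
    intro Q hQ
    by_cases h : Spans hkK Q
    · exact Or.inl ⟨hQ, h⟩
    · right
      refine ⟨h, ?_⟩
      have hh : height Q ≤ Real.log B := hQ.2
      have hmh : 0 < Q.mulHeight := by
        rw [← rep_height]; exact Height.mulHeight_pos _
      unfold height at hh
      rw [div_le_iff₀ (n_pos K)] at hh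
      have h7 : Real.log Q.mulHeight ≤ Real.log (B ^ Module.finrank ℚ K) := by
        rw [Real.log_pow]; linarith
      exact (Real.log_le_log_iff hmh (by positivity)).1 h7
  obtain ⟨hbfin, hbcard⟩ := hC2 B hB1
  have hcount : (Pt.ncard : ℝ) ≤ good.ncard + C2 * B ^ ((n : ℝ) * (m + 1) - 1) := by
    have e1 := (Set.ncard_le_ncard hcover (hgfin.union hbfin)).trans (Set.ncard_union_le _ _)
    have e2 : (Pt.ncard : ℝ) ≤ good.ncard + ({Q | Q ∈ {Q : ℙ K (Fin (m + 1) → K) |
      Submodule.span k (Set.range Q.rep) ≠ ⊤} ∧ Q.mulHeight ≤ B ^ Module.finrank ℚ K}.ncard : ℝ) := by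
      exact_mod_cast e1
    rw [hfrK] at hbcard e2
    linarith
  have hhalf : C2 * B ^ ((n : ℝ) * (m + 1) - 1) ≤ c1 / 2 * B ^ ((n : ℝ) * (m + 1) - δ1) := by
    have e1 : B ^ ((n : ℝ) * (m + 1) - δ1) = B ^ ((n : ℝ) * (m + 1) - 1) * B ^ (1 - δ1) := by
      rw [← Real.rpow_add hB0]
      congr 1
      ring
    have e2 : 2 * C2 / c1 ≤ B ^ (1 - δ1) := by
      have e3 : 2 * C2 / c1 ≤ B ^ ((1 : ℝ) / 2) := by
        have h0 : 0 ≤ 2 * C2 / c1 := by positivity
        calc 2 * C2 / c1 = ((2 * C2 / c1) ^ 2) ^ ((1 : ℝ) / 2) := by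
              rw [← Real.rpow_natCast, ← Real.rpow_mul h0]
              norm_num
          _ ≤ _ := Real.rpow_le_rpow (by positivity) hBc (by norm_num)
      refine e3.trans (Real.rpow_le_rpow_of_exponent_le hB1 (by linarith))
    rw [div_le_iff₀ hc10] at e2
    rw [e1]
    have e4 : 0 ≤ B ^ ((n : ℝ) * (m + 1) - 1) := by positivity
    nlinarith
  have hgood2 : c1 / 2 * B ^ ((n : ℝ) * (m + 1) - δ) ≤ (good.ncard : ℝ) := by
    have e1 : c1 / 2 * B ^ ((n : ℝ) * (m + 1) - δ) ≤ c1 / 2 * B ^ ((n : ℝ) * (m + 1) - δ1) :=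
      mul_le_mul_of_nonneg_left (Real.rpow_le_rpow_of_exponent_le hB1 (by linarith))
        (by positivity)
    linarith
  refine ⟨hgfin.toFinset.image toC, ?_, ?_⟩
  · intro P hP
    rw [Finset.coe_image] at hP
    obtain ⟨Q, hQ, rfl⟩ := hP
    rw [Finset.mem_coe, Set.Finite.mem_toFinset] at hQ
    obtain ⟨⟨hv, hh⟩, hsp⟩ := hQ
    have hv' : ∀ i, value (liftTo hkK a i) Q ≠ 0 := hv
    have hh' : height Q ≤ Real.log B := hh
    exact ⟨⟨K, hK, hkK, Q, fieldOf_of_spans hkK Q hsp, hdeg, rfl, hv', hh'⟩,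
      (spans_iff hkK hdeg Q).1 hsp⟩
  · rw [Finset.card_image_of_injective _ fun _ _ h => toC_inj h,
      ← Set.ncard_eq_toFinset_card _ hgfin]
    exact hgood2

end Pool.Agent.N752.SU
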