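import Mathlib
import Pool.Agent.N752.SU.Low
import Pool.Agent.N752.FD.SliceE

/-!
The truncated inequality for almost all nondegenerate points of given degree: the upper bounds.
-/

set_option autoImplicit false

namespace Pool.Agent.N752.SU

open NumberField Finset
open scoped LinearAlgebra.Projectivization
open Pool.Agent.Results.MP_44a246_nt.BoundedDegreeHyperplanes
  (height value logNorm truncated liftTo toC fieldOf Points alpha ExcK n_pos)
open Pool.Agent.Results.MP_9ec3f0_nt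

/-- The exponent `m + 1 - (1 - 2 α / m) (m + 1 - e)`, where
`e = min (θ (1 - binom(q - m, m + 1) / binom(q, m + 1)), (m + 1) (1 - m (q - θ) / (q (q - 1))))`. -/
noncomputable def exponent (m q : ℕ) (α θ : ℝ) : ℝ :=
  (m : ℝ) + 1 - (1 - 2 * α / m) * ((m : ℝ) + 1 -
    min (θ * (1 - ((q - m).choose (m + 1) : ℝ) / (q.choose (m + 1) : ℝ)))
      (((m : ℝ) + 1) * (1 - (m : ℝ) * ((q : ℝ) - θ) / ((q : ℝ) * ((q : ℝ) - 1)))))

/-- The points of `ℙ^m` whose field of definition has degree `r` over `k` and whose coordinates span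
a vector space of dimension `r` over `k`, off the hyperplanes `a i`, of height at most `log B`. -/
def Nondegenerate (k : IntermediateField ℚ ℂ) {m q : ℕ} (a : Fin q → Fin (m + 1) → k) (r : ℕ)
    (B : ℝ) : Set (ℙ ℂ (Fin (m + 1) → ℂ)) :=
  {P | P ∈ Points k a r B ∧ spanDim k P = r}

/-- The points `P` of `Nondegenerate` with
`N_S^{(1)}(D, P) + (∑_{v ∈ S} log N_v) / [k(P) : ℚ] ≤ θ h(P) + c` for some finite set `S` of finite
places of `k(P)`. -/
def Exceptional (k : IntermediateField ℚ ℂ) {m q : ℕ} (a : Fin q → Fin (m + 1) → k) (r : ℕ)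
    (θ c B : ℝ) : Set (ℙ ℂ (Fin (m + 1) → ℂ)) :=
  {P | spanDim k P = r ∧ ∃ (K : IntermediateField ℚ ℂ) (_ : NumberField K) (h : k ≤ K)
    (Q : ℙ K (Fin (m + 1) → K)),
    fieldOf k P = K ∧ Module.finrank ℚ K = r * Module.finrank ℚ k ∧ toC Q = P ∧
    (∀ i, value (liftTo h a i) Q ≠ 0) ∧ height Q ≤ Real.log B ∧
    ∃ S : Finset (FinitePlace K), truncated S (liftTo h a) Q +
      (∑ v ∈ S, logNorm v) / Module.finrank ℚ K ≤ θ * height Q + c}

section

variable {m q : ℕ}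

/-- the exceptions over one field -/
def E1 (k : IntermediateField ℚ ℂ) (a : Fin q → Fin (m + 1) → k) (θ c : ℝ)
    (K : IntermediateField ℚ ℂ) (B : ℝ) : Set (ℙ ℂ (Fin (m + 1) → ℂ)) :=
  {P | ∃ (_ : NumberField K) (h : k ≤ K) (Q : ℙ K (Fin (m + 1) → K)), toC Q = P ∧ Spans h Q ∧
    (∀ i, value (liftTo h a i) Q ≠ 0) ∧ height Q ≤ Real.log B ∧
    ∃ S : Finset (FinitePlace K), truncated S (liftTo h a) Q +
      (∑ v ∈ S, logNorm v) / Module.finrank ℚ K ≤ θ * height Q + c}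

/-- the points over one field -/
def E2 (k : IntermediateField ℚ ℂ) (a : Fin q → Fin (m + 1) → k)
    (K : IntermediateField ℚ ℂ) (B : ℝ) : Set (ℙ ℂ (Fin (m + 1) → ℂ)) :=
  {P | ∃ (_ : NumberField K) (h : k ≤ K) (Q : ℙ K (Fin (m + 1) → K)), toC Q = P ∧ Spans h Q ∧
    (∀ i, value (liftTo h a i) Q ≠ 0) ∧ height Q ≤ Real.log B}

open Pool.Agent.Results.MP_9ec3f0_nt.AllFieldsAllDegrees (expo) in
open Pool.Agent.W223.VD (FieldExp) in
theorem upper (k : IntermediateField ℚ ℂ) [NumberField k] (hm : 1 ≤ m) (hq : m + 1 ≤ q)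
    (a : Fin q → Fin (m + 1) → k)
    (ha : ∀ I : Finset (Fin q), I.card = m + 1 → LinearIndependent k (fun i : I => a i))
    (r n : ℕ) (hn : n = r * Module.finrank ℚ k) (hn2 : 2 ≤ n) {α : ℝ} (hα1 : 1 ≤ α)
    (hF : FieldExp n α) (hmα : 2 * α ≤ m) (θ c δ : ℝ) (hθ : 0 ≤ θ) (hθq : θ < q) (hδ : 0 < δ) :
    ∃ C : ℝ, ∀ B : ℝ, 1 ≤ B → (Exceptional k a r θ c B).Finite ∧
      ((Exceptional k a r θ c B).ncard : ℝ) ≤ C * B ^ ((n : ℝ) * exponent m q α θ + δ) := by
  have hn0 : (0 : ℝ) < n := by exact_mod_cast (show 0 < n by omega)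
  obtain ⟨C, hC1, hC⟩ := Pool.Agent.N752.FD.excK_count' k hm hq a ha θ c (δ / (2 * n)) hθ hθq
    (by positivity)
  have he₁ : expo m q θ ≤ m + 1 := by
    unfold expo
    refine (min_le_right _ _).trans ?_
    have hm1 : (1 : ℝ) ≤ m := by exact_mod_cast hm
    have hq1 : (m : ℝ) + 1 ≤ q := by exact_mod_cast hq
    have h1 : 0 ≤ (m : ℝ) * ((q : ℝ) - θ) / ((q : ℝ) * ((q : ℝ) - 1)) := by
      refine div_nonneg (mul_nonneg (by linarith) (by linarith)) ?_
      exact mul_nonneg (by linarith) (by linarith)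
    nlinarith
  have hsub : ∀ (K : IntermediateField ℚ ℂ) (B : ℝ), E1 k a θ c K B ⊆ ExcK k a θ c B K := by
    rintro K B P ⟨hK, h, Q, hQ, -, hv, hh, hS⟩
    exact ⟨hK, h, Q, hQ, hv, hh, hS⟩
  obtain ⟨C', hC'⟩ := Pool.Agent.N752.SU.slices k hm n (by omega) hα1 hF hmα (expo m q θ) he₁ δ
    (C ^ n) hδ (one_le_pow₀ hC1) (E1 k a θ c) (by
      intro K hK hKn B hB
      have hB0 : 0 < B := by linarith
      obtain ⟨h1, h2⟩ := hC K hK B hB
      refine ⟨h1.subset (hsub K B), ?_⟩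
      have h3 : ((E1 k a θ c K B).ncard : ℝ) ≤ ((ExcK k a θ c B K).ncard : ℝ) := by
        exact_mod_cast Set.ncard_le_ncard (hsub K B) h1
      refine (h3.trans h2).trans (le_of_eq ?_)
      rw [hKn, mul_pow, ← Real.rpow_natCast (B ^ (expo m q θ + δ / (2 * n))),
        ← Real.rpow_mul hB0.le]
      congr 2
      field_simp) (by
      rintro K hK B P ⟨hK', h, Q, hQ, hs, -, hh, -⟩
      have : hK' = hK := Subsingleton.elim _ _
      subst this
      exact ⟨h, Q, hQ, hs, hh⟩)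
  refine ⟨C', fun B hB => ?_⟩
  obtain ⟨h1, h2⟩ := hC' B hB
  have hsub2 : Exceptional k a r θ c B ⊆ {P | ∃ (K : IntermediateField ℚ ℂ) (_ : NumberField K),
      Module.finrank ℚ K = n ∧ P ∈ E1 k a θ c K B} := by
    rintro P ⟨hsp, K, hK, h, Q, -, hdeg, hQ, hv, hh, hS⟩
    refine ⟨K, hK, by rw [hdeg, hn], hK, h, Q, hQ, ?_, hv, hh, hS⟩
    rw [Pool.Agent.N752.SU.spans_iff h hdeg, hQ]
    exact hsp
  refine ⟨h1.subset hsub2, le_trans ?_ h2⟩
  exact_mod_cast Set.ncard_le_ncard hsub2 h1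

open Pool.Agent.W223.VD (FieldExp) in
theorem all (k : IntermediateField ℚ ℂ) [NumberField k] (hm : 1 ≤ m) (hq : m + 1 ≤ q)
    (a : Fin q → Fin (m + 1) → k)
    (ha : ∀ I : Finset (Fin q), I.card = m + 1 → LinearIndependent k (fun i : I => a i))
    (r n : ℕ) (hn : n = r * Module.finrank ℚ k) (hn2 : 2 ≤ n) {α : ℝ} (hα1 : 1 ≤ α)
    (hF : FieldExp n α) (hmα : 2 * α ≤ m) (δ : ℝ) (hδ : 0 < δ) :
    ∃ C : ℝ, ∀ B : ℝ, 1 ≤ B → (Nondegenerate k a r B).Finite ∧
      ((Nondegenerate k a r B).ncard : ℝ) ≤ C * B ^ ((n : ℝ) * (m + 1) + δ) := by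
  classical
  have hn0 : (0 : ℝ) < n := by exact_mod_cast (show 0 < n by omega)
  have hm1 : (1 : ℝ) ≤ m := by exact_mod_cast hm
  have hq0 : (0 : ℝ) < q := by exact_mod_cast (show 0 < q by omega)
  set ε : ℝ := min (δ / (2 * n)) 1 with hε
  have hε0 : 0 < ε := lt_min (by positivity) one_pos
  have hε1 : ε ≤ 1 := min_le_right _ _
  have hεδ : n * ε ≤ δ / 2 := by
    have h1 : ε ≤ δ / (2 * n) := min_le_left _ _
    calc n * ε ≤ n * (δ / (2 * n)) := mul_le_mul_of_nonneg_left h1 (by positivity)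
      _ = δ / 2 := by field_simp
  obtain ⟨C, hC1, hC⟩ := Pool.Agent.N752.SU.pts_card k n m (by omega) hε0
  obtain ⟨h1, -⟩ := AllFieldsAllDegrees.result k m q hm hq a ha
  obtain ⟨-, C', -, h1'⟩ := h1 0 0 1 (le_refl _) hq0 one_pos
  have hfin : ∀ (K : IntermediateField ℚ ℂ) (_ : NumberField K) (B : ℝ), 1 ≤ B →
      (E2 k a K B).Finite := by
    intro K hK B hB
    by_cases h : k ≤ K
    · let _ : Algebra k K := (IntermediateField.inclusion h).toRingHom.toAlgebra
      obtain ⟨h3, -⟩ := h1' K B hB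
      refine (h3.image toC).subset ?_
      rintro P ⟨hK', h', Q, hQ, -, hv, hh⟩
      exact ⟨Q, ⟨hv, hh⟩, hQ⟩
    · have : E2 k a K B = ∅ := by
        ext P
        simp only [Set.mem_empty_iff_false, iff_false]
        rintro ⟨_, h', -⟩
        exact h h'
      rw [this]
      exact Set.finite_empty
  obtain ⟨C'', hC''⟩ := Pool.Agent.N752.SU.slices k hm n (by omega) hα1 hF hmα ((m : ℝ) + 1)
    (le_refl _) δ C hδ hC1 (E2 k a) (by
      intro K hK hKn B hB
      have hB0 : 0 < B := by linarith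
      have hf := hfin K hK B hB
      refine ⟨hf, ?_⟩
      rcases (E2 k a K B).eq_empty_or_nonempty with hemp | ⟨P0, hP0⟩
      · rw [hemp, Set.ncard_empty, Nat.cast_zero]
        positivity
      obtain ⟨-, hkK, -⟩ := hP0
      let _ : Algebra k K := (IntermediateField.inclusion hkK).toRingHom.toAlgebra
      have hex : ∀ P : ℙ ℂ (Fin (m + 1) → ℂ), ∃ Q : ℙ K (Fin (m + 1) → K), P ∈ E2 k a K B →
          ∃ h : k ≤ K, toC Q = P ∧ Spans h Q ∧ height Q ≤ Real.log B := by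
        intro P
        by_cases hP : P ∈ E2 k a K B
        · obtain ⟨hK', h, Q, hQ, hs, -, hh⟩ := hP
          have : hK' = hK := Subsingleton.elim _ _
          subst this
          exact ⟨Q, fun _ => ⟨h, hQ, hs, hh⟩⟩
        · exact ⟨Projectivization.mk K (fun _ => 1) (by
            intro h0
            have := congrFun h0 0
            simp at this), fun h => absurd h hP⟩
      choose ψ hψ using hex
      have h3 := hC K hKn (B ^ n) (one_le_pow₀ hB) (hf.toFinset.image ψ) (by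
        intro Q hQ
        obtain ⟨P, hP, rfl⟩ := Finset.mem_image.1 hQ
        rw [Set.Finite.mem_toFinset] at hP
        obtain ⟨h, h4, h5, h6⟩ := hψ P hP
        refine ⟨?_, h5⟩
        have hmh : 0 < (ψ P).mulHeight := by
          rw [← Pool.Agent.N752.SU.rep_height]; exact Height.mulHeight_pos _
        unfold height at h6
        rw [div_le_iff₀ (n_pos K), hKn] at h6
        have h7 : Real.log (ψ P).mulHeight ≤ Real.log (B ^ n) := by
          rw [Real.log_pow]; linarith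
        exact (Real.log_le_log_iff hmh (by positivity)).1 h7)
      have h4 : (E2 k a K B).ncard = (hf.toFinset.image ψ).card := by
        rw [Finset.card_image_of_injOn, Set.ncard_eq_toFinset_card _ hf]
        intro P hP P' hP' he
        rw [Finset.mem_coe, Set.Finite.mem_toFinset] at hP hP'
        obtain ⟨-, h5, -⟩ := hψ P hP
        obtain ⟨-, h6, -⟩ := hψ P' hP'
        rw [← h5, ← h6, he]
      rw [h4]
      refine h3.trans ?_
      have h5 : √|(NumberField.discr K : ℝ)| ^ (ε - m) ≤ 1 :=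
        Real.rpow_le_one_of_one_le_of_nonpos Pool.Agent.N752.SU.one_le_sqrt (by linarith)
      calc C * (B ^ n) ^ ((m : ℝ) + 1 + ε) * √|(NumberField.discr K : ℝ)| ^ (ε - m)
          ≤ C * (B ^ n) ^ ((m : ℝ) + 1 + ε) * 1 :=
            mul_le_mul_of_nonneg_left h5 (by positivity)
        _ = C * B ^ ((n : ℝ) * ((m : ℝ) + 1 + ε)) := by
            rw [← Real.rpow_natCast B n, ← Real.rpow_mul hB0.le, mul_one]
        _ ≤ _ := by
            refine mul_le_mul_of_nonneg_left ?_ (by linarith)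
            exact Real.rpow_le_rpow_of_exponent_le hB (by linarith)) (by
      rintro K hK B P ⟨hK', h, Q, hQ, hs, -, hh⟩
      have : hK' = hK := Subsingleton.elim _ _
      subst this
      exact ⟨h, Q, hQ, hs, hh⟩)
  refine ⟨C'', fun B hB => ?_⟩
  obtain ⟨h2, h3⟩ := hC'' B hB
  have hsub2 : Nondegenerate k a r B ⊆ {P | ∃ (K : IntermediateField ℚ ℂ) (_ : NumberField K),
      Module.finrank ℚ K = n ∧ P ∈ E2 k a K B} := by
    rintro P ⟨⟨K, hK, h, Q, -, hdeg, hQ, hv, hh⟩, hsp⟩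
    refine ⟨K, hK, by rw [hdeg, hn], hK, h, Q, hQ, ?_, hv, hh⟩
    rw [Pool.Agent.N752.SU.spans_iff h hdeg, hQ]
    exact hsp
  refine ⟨h2.subset hsub2, ?_⟩
  rw [sub_self, mul_zero, sub_zero] at h3
  refine le_trans ?_ h3
  exact_mod_cast Set.ncard_le_ncard hsub2 h2

/-- the exponent is smaller than `m + 1` -/
lemma exponent_lt (hm : 1 ≤ m) (hq : m + 1 ≤ q) {α θ : ℝ} (hα : 2 * α < m) (hθ : θ < q) :
    exponent m q α θ < m + 1 := by
  unfold exponent
  have hm1 : (1 : ℝ) ≤ m := by exact_mod_cast hm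
  have hq1 : (m : ℝ) + 1 ≤ q := by exact_mod_cast hq
  have h1 : 0 < (m : ℝ) * ((q : ℝ) - θ) / ((q : ℝ) * ((q : ℝ) - 1)) := by
    refine div_pos (mul_pos (by linarith) (by linarith)) ?_
    exact mul_pos (by linarith) (by linarith)
  have h2 : min (θ * (1 - ((q - m).choose (m + 1) : ℝ) / (q.choose (m + 1) : ℝ)))
      (((m : ℝ) + 1) * (1 - (m : ℝ) * ((q : ℝ) - θ) / ((q : ℝ) * ((q : ℝ) - 1)))) < m + 1 := by
    refine lt_of_le_of_lt (min_le_right _ _) ?_
    nlinarith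
  have h3 : 2 * α / m < 1 := by
    rw [div_lt_one (by linarith)]
    exact hα
  have h4 := mul_pos (sub_pos.2 h3) (sub_pos.2 h2)
  linarith

/-- the condition on the dimension -/
lemma alpha_lt {n : ℕ} (hn : 2 ≤ n) (hm : n + 1 ≤ m) (c η : ℝ) : 2 * alpha n c η < m := by
  have hn2 : (2 : ℝ) ≤ n := by exact_mod_cast hn
  have hm' : (n : ℝ) + 1 ≤ m := by exact_mod_cast hm
  have h1 : alpha n c η ≤ ((n : ℝ) - 1) * (n + 2) / (4 * ((n + 1) / 2 : ℕ)) := min_le_left _ _
  have h2 : (2 * n : ℝ) ≤ 4 * ((n + 1) / 2 : ℕ) := by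
    have : 2 * n ≤ 4 * ((n + 1) / 2) := by omega
    exact_mod_cast this
  have h3 : ((n : ℝ) - 1) * (n + 2) / (4 * ((n + 1) / 2 : ℕ)) ≤ ((n : ℝ) - 1) * (n + 2) / (2 * n) :=
    div_le_div_of_nonneg_left (mul_nonneg (by linarith) (by linarith)) (by linarith) h2
  have h4 : 2 * (((n : ℝ) - 1) * (n + 2) / (2 * n)) < n + 1 := by
    rw [mul_div_assoc', div_lt_iff₀ (by linarith)]
    nlinarith
  linarith

end

end Pool.Agent.N752.SU
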