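import Mathlib
import Pool.Agent.N752.SU.Upper
import Pool.Agent.N752.SU.Diag

/-!
One set of density zero for all arrangements of hyperplanes.
-/

set_option autoImplicit false

namespace Pool.Agent.N752.SU

open NumberField Finset
open scoped LinearAlgebra.Projectivization
open Pool.Agent.Results.MP_44a246_nt.BoundedDegreeHyperplanes
  (height value logDisc logNorm truncated liftTo toC fieldOf Points alpha ExcK n_pos toC_inj
    logNorm_nonneg truncated_nonneg)
open Pool.Agent.Results.MP_9ec3f0_nt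

/-- The points of `ℙ^m` whose field of definition has degree `r` over `k` and whose coordinates span
a vector space of dimension `r` over `k`, of absolute logarithmic height at most `T`. -/
def Full (k : IntermediateField ℚ ℂ) (m r : ℕ) (T : ℝ) : Set (ℙ ℂ (Fin (m + 1) → ℂ)) :=
  {P | spanDim k P = r ∧ ∃ (K : IntermediateField ℚ ℂ) (_ : NumberField K) (_ : k ≤ K)
    (Q : ℙ K (Fin (m + 1) → K)), fieldOf k P = K ∧
    Module.finrank ℚ K = r * Module.finrank ℚ k ∧ toC Q = P ∧ height Q ≤ T}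

variable {m : ℕ}

lemma full_mono (k : IntermediateField ℚ ℂ) (m r : ℕ) : Monotone (Full k m r) := by
  rintro T T' h P ⟨hs, K, hK, hk, Q, hf, hd, hQ, hh⟩
  exact ⟨hs, K, hK, hk, Q, hf, hd, hQ, hh.trans h⟩

lemma height_nonneg {K : IntermediateField ℚ ℂ} [NumberField K] (Q : ℙ K (Fin (m + 1) → K)) :
    0 ≤ height Q := by
  unfold height
  refine div_nonneg (Real.log_nonneg ?_) (n_pos K).le
  rw [← rep_height]
  exact Height.one_le_mulHeight _

/-- all points over one field -/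
def E3 (k : IntermediateField ℚ ℂ) (m : ℕ) (K : IntermediateField ℚ ℂ) (B : ℝ) :
    Set (ℙ ℂ (Fin (m + 1) → ℂ)) :=
  {P | ∃ (_ : NumberField K) (h : k ≤ K) (Q : ℙ K (Fin (m + 1) → K)), toC Q = P ∧ Spans h Q ∧
    height Q ≤ Real.log B}

open Pool.Agent.W223.VD (FieldExp) in
/-- finiteness and an upper bound -/
theorem full_upper (k : IntermediateField ℚ ℂ) [NumberField k] (hm : 1 ≤ m)
    (r n : ℕ) (hn : n = r * Module.finrank ℚ k) (hn2 : 2 ≤ n) {α : ℝ} (hα1 : 1 ≤ α)
    (hF : FieldExp n α) (hmα : 2 * α ≤ m) (δ : ℝ) (hδ : 0 < δ) :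
    ∃ C : ℝ, ∀ T : ℝ, 0 ≤ T → (Full k m r T).Finite ∧
      ((Full k m r T).ncard : ℝ) ≤ C * Real.exp (((n : ℝ) * (m + 1) + δ) * T) := by
  classical
  have hn0 : (0 : ℝ) < n := by exact_mod_cast (show 0 < n by omega)
  have hm1 : (1 : ℝ) ≤ m := by exact_mod_cast hm
  set ε : ℝ := min (δ / (2 * n)) 1 with hε
  have hε0 : 0 < ε := lt_min (by positivity) one_pos
  have hε1 : ε ≤ 1 := min_le_right _ _
  have hεδ : n * ε ≤ δ / 2 := by
    have h1 : ε ≤ δ / (2 * n) := min_le_left _ _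
    calc n * ε ≤ n * (δ / (2 * n)) := mul_le_mul_of_nonneg_left h1 (by positivity)
      _ = δ / 2 := by field_simp
  obtain ⟨C, hC1, hC⟩ := pts_card k n m (by omega) hε0
  have hht : ∀ (K : IntermediateField ℚ ℂ) (_ : NumberField K) (Q : ℙ K (Fin (m + 1) → K)) (B : ℝ),
      1 ≤ B → height Q ≤ Real.log B → Q.mulHeight ≤ B ^ Module.finrank ℚ K := by
    intro K hK Q B hB h6
    have hB0 : 0 < B := by linarith
    have hmh : 0 < Q.mulHeight := by
      rw [← rep_height]; exact Height.mulHeight_pos _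
    unfold height at h6
    rw [div_le_iff₀ (n_pos K)] at h6
    have h7 : Real.log Q.mulHeight ≤ Real.log (B ^ Module.finrank ℚ K) := by
      rw [Real.log_pow]; linarith
    exact (Real.log_le_log_iff hmh (by positivity)).1 h7
  have hfin : ∀ (K : IntermediateField ℚ ℂ) (_ : NumberField K) (B : ℝ), 1 ≤ B →
      (E3 k m K B).Finite := by
    intro K hK B hB
    obtain ⟨C', -, h⟩ := Pool.Agent.N752.RD.pts_upper K m
    refine ((h B hB).1.image toC).subset ?_
    rintro P ⟨hK', h', Q, hQ, -, hh⟩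
    have : hK' = hK := Subsingleton.elim _ _
    subst this
    exact ⟨Q, hht K hK' Q B hB hh, hQ⟩
  obtain ⟨C'', hC''⟩ := slices k hm n (by omega) hα1 hF hmα ((m : ℝ) + 1)
    (le_refl _) δ C hδ hC1 (E3 k m) (by
      intro K hK hKn B hB
      have hB0 : 0 < B := by linarith
      have hf := hfin K hK B hB
      refine ⟨hf, ?_⟩
      rcases (E3 k m K B).eq_empty_or_nonempty with hemp | ⟨P0, hP0⟩
      · rw [hemp, Set.ncard_empty, Nat.cast_zero]
        positivity
      obtain ⟨-, hkK, -⟩ := hP0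
      let _ : Algebra k K := (IntermediateField.inclusion hkK).toRingHom.toAlgebra
      have hex : ∀ P : ℙ ℂ (Fin (m + 1) → ℂ), ∃ Q : ℙ K (Fin (m + 1) → K), P ∈ E3 k m K B →
          ∃ h : k ≤ K, toC Q = P ∧ Spans h Q ∧ height Q ≤ Real.log B := by
        intro P
        by_cases hP : P ∈ E3 k m K B
        · obtain ⟨hK', h, Q, hQ, hs, hh⟩ := hP
          have : hK' = hK := Subsingleton.elim _ _
          subst this
          exact ⟨Q, fun _ => ⟨h, hQ, hs, hh⟩⟩
        · exact ⟨Projectivization.mk K (fun _ => 1) (by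
            intro h0
            have := congrFun h0 0
            simp at this), fun h => absurd h hP⟩
      choose ψ hψ using hex
      have h3 := hC K hKn (B ^ n) (one_le_pow₀ hB) (hf.toFinset.image ψ) (by
        intro Q hQ
        obtain ⟨P, hP, rfl⟩ := Finset.mem_image.1 hQ
        rw [Set.Finite.mem_toFinset] at hP
        obtain ⟨h, h4, h5, h6⟩ := hψ P hP
        refine ⟨?_, h5⟩
        rw [← hKn]
        exact hht K hK _ B hB h6)
      have h4 : (E3 k m K B).ncard = (hf.toFinset.image ψ).card := by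
        rw [Finset.card_image_of_injOn, Set.ncard_eq_toFinset_card _ hf]
        intro P hP P' hP' he
        rw [Finset.mem_coe, Set.Finite.mem_toFinset] at hP hP'
        obtain ⟨-, h5, -⟩ := hψ P hP
        obtain ⟨-, h6, -⟩ := hψ P' hP'
        rw [← h5, ← h6, he]
      rw [h4]
      refine h3.trans ?_
      have h5 : √|(NumberField.discr K : ℝ)| ^ (ε - m) ≤ 1 :=
        Real.rpow_le_one_of_one_le_of_nonpos one_le_sqrt (by linarith)
      calc C * (B ^ n) ^ ((m : ℝ) + 1 + ε) * √|(NumberField.discr K : ℝ)| ^ (ε - m)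
          ≤ C * (B ^ n) ^ ((m : ℝ) + 1 + ε) * 1 :=
            mul_le_mul_of_nonneg_left h5 (by positivity)
        _ = C * B ^ ((n : ℝ) * ((m : ℝ) + 1 + ε)) := by
            rw [← Real.rpow_natCast B n, ← Real.rpow_mul hB0.le, mul_one]
        _ ≤ _ := by
            refine mul_le_mul_of_nonneg_left ?_ (by linarith)
            exact Real.rpow_le_rpow_of_exponent_le hB (by linarith)) (by
      rintro K hK B P ⟨hK', h, Q, hQ, hs, hh⟩
      have : hK' = hK := Subsingleton.elim _ _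
      subst this
      exact ⟨h, Q, hQ, hs, hh⟩)
  refine ⟨C'', fun T hT => ?_⟩
  obtain ⟨h2, h3⟩ := hC'' (Real.exp T) (Real.one_le_exp hT)
  have hsub2 : Full k m r T ⊆ {P | ∃ (K : IntermediateField ℚ ℂ) (_ : NumberField K),
      Module.finrank ℚ K = n ∧ P ∈ E3 k m K (Real.exp T)} := by
    rintro P ⟨hsp, K, hK, h, Q, -, hdeg, hQ, hh⟩
    refine ⟨K, hK, by rw [hdeg, hn], hK, h, Q, hQ, ?_, by rw [Real.log_exp]; exact hh⟩
    rw [spans_iff h hdeg, hQ]
    exact hsp
  refine ⟨h2.subset hsub2, ?_⟩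
  rw [sub_self, mul_zero, sub_zero, ← Real.exp_mul] at h3
  have h5 : T * ((n : ℝ) * (m + 1) + δ) = ((n : ℝ) * (m + 1) + δ) * T := by ring
  rw [h5] at h3
  refine le_trans ?_ h3
  exact_mod_cast Set.ncard_le_ncard hsub2 h2

/-- the coordinate forms -/
noncomputable def crd (k : IntermediateField ℚ ℂ) (m : ℕ) : Fin (m + 1) → Fin (m + 1) → k :=
  fun i => Pi.single i 1

lemma crd_indep (k : IntermediateField ℚ ℂ) (m : ℕ) : ∀ I : Finset (Fin (m + 1)), I.card = m + 1 →
    LinearIndependent k (fun i : I => crd k m i) := by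
  intro I _
  have h : LinearIndependent k (crd k m) := by
    have := (Pi.basisFun k (Fin (m + 1))).linearIndependent
    convert this using 1
    funext i
    simp [Pi.basisFun_apply, crd]
  exact h.comp (fun i : I => (i : Fin (m + 1))) Subtype.val_injective

open Pool.Agent.W223.VD (FieldExp) in
/-- a set with a power saving has density zero -/
lemma density_of_saving (k : IntermediateField ℚ ℂ) [NumberField k] (hm : 1 ≤ m)
    (r n : ℕ) (hn : n = r * Module.finrank ℚ k) (hn2 : 2 ≤ n) (hr : 1 ≤ r) (hrm : r ≤ m + 1)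
    {α : ℝ} (hα1 : 1 ≤ α) (hF : FieldExp n α) (hmα : 2 * α ≤ m)
    (E : Set (ℙ ℂ (Fin (m + 1) → ℂ))) (x : ℝ) (hx : x < (n : ℝ) * (m + 1)) (C : ℝ)
    (hE : ∀ T : ℝ, 0 ≤ T → ((E ∩ Full k m r T).ncard : ℝ) ≤ C * Real.exp (x * T)) :
    DensityZero (Full k m r) E := by
  obtain ⟨c₁, B₁, hc₁, hlow⟩ := lowN k hm (le_refl (m + 1)) (crd k m) (crd_indep k m) r n hn hr hrm
    (((n : ℝ) * (m + 1) - x) / 2) (by linarith)
  obtain ⟨C', hC'⟩ := full_upper k hm r n hn hn2 hα1 hF hmα 1 one_pos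
  intro ε hε
  set y := ((n : ℝ) * (m + 1) - x) / 2 with hy
  have hy0 : 0 < y := by rw [hy]; linarith
  obtain ⟨T₀, hT₀⟩ : ∃ T₀ : ℝ, |C| / (ε * c₁) ≤ Real.exp (y * T₀) := by
    refine ⟨|C| / (ε * c₁) / y, ?_⟩
    rw [mul_div_cancel₀ _ hy0.ne']
    have := Real.add_one_le_exp (|C| / (ε * c₁))
    linarith
  refine ⟨max (max 0 T₀) (Real.log (max B₁ 1)), fun T hT => ?_⟩
  have hT0 : 0 ≤ T := (le_max_left _ _).trans ((le_max_left _ _).trans hT)
  have hT1 : T₀ ≤ T := (le_max_right _ _).trans ((le_max_left _ _).trans hT)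
  have hT2 : B₁ ≤ Real.exp T := by
    have h1 : Real.log (max B₁ 1) ≤ T := (le_max_right _ _).trans hT
    have h2 : max B₁ 1 ≤ Real.exp T := by
      rw [← Real.log_le_iff_le_exp (lt_of_lt_of_le one_pos (le_max_right _ _))]
      exact h1
    exact (le_max_left _ _).trans h2
  obtain ⟨F, hFsub, hFcard⟩ := hlow (Real.exp T) hT2
  have hfin := (hC' T hT0).1
  have h1 : c₁ * Real.exp ((x + y) * T) ≤ ((Full k m r T).ncard : ℝ) := by
    have h2 : (F.card : ℝ) ≤ ((Full k m r T).ncard : ℝ) := by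
      rw [← Set.ncard_coe_finset F]
      have h3 : (F : Set (ℙ ℂ (Fin (m + 1) → ℂ))) ⊆ Full k m r T := by
        intro P hP
        obtain ⟨⟨K, hK, h, Q, hf, hdeg, hQ, -, hh⟩, hsp⟩ := hFsub hP
        rw [Real.log_exp] at hh
        exact ⟨hsp, K, hK, h, Q, hf, hdeg, hQ, hh⟩
      exact_mod_cast Set.ncard_le_ncard h3 hfin
    refine le_trans (le_of_eq ?_) (hFcard.trans h2)
    rw [← Real.exp_mul]
    congr 2
    rw [hy]
    ring
  have h2 := hE T hT0
  have h3 : |C| ≤ ε * c₁ * Real.exp (y * T) := by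
    rw [div_le_iff₀ (by positivity)] at hT₀
    have h4 : Real.exp (y * T₀) ≤ Real.exp (y * T) :=
      Real.exp_le_exp.2 (mul_le_mul_of_nonneg_left hT1 hy0.le)
    have h5 : 0 < ε * c₁ := by positivity
    nlinarith
  calc ((E ∩ Full k m r T).ncard : ℝ) ≤ C * Real.exp (x * T) := h2
    _ ≤ |C| * Real.exp (x * T) := mul_le_mul_of_nonneg_right (le_abs_self C) (Real.exp_pos _).le
    _ ≤ (ε * c₁ * Real.exp (y * T)) * Real.exp (x * T) :=
        mul_le_mul_of_nonneg_right h3 (Real.exp_pos _).le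
    _ = ε * (c₁ * Real.exp ((x + y) * T)) := by
        rw [mul_assoc, ← Real.exp_add]
        rw [show y * T + x * T = (x + y) * T by ring]
        ring
    _ ≤ _ := mul_le_mul_of_nonneg_left h1 hε.le

/-- the exceptions for one arrangement -/
def E4 (k : IntermediateField ℚ ℂ) (m r q : ℕ) (a : Fin q → Fin (m + 1) → k) (θ : ℝ) :
    Set (ℙ ℂ (Fin (m + 1) → ℂ)) :=
  {P | spanDim k P = r ∧ ∃ (K : IntermediateField ℚ ℂ) (_ : NumberField K) (h : k ≤ K)
    (Q : ℙ K (Fin (m + 1) → K)),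
    fieldOf k P = K ∧ Module.finrank ℚ K = r * Module.finrank ℚ k ∧ toC Q = P ∧
    (∀ i, value (liftTo h a i) Q ≠ 0) ∧
    ∃ S : Finset (FinitePlace K), truncated S (liftTo h a) Q +
      (∑ v ∈ S, logNorm v) / Module.finrank ℚ K ≤ θ * height Q}

lemma unique_rep {k K K' : IntermediateField ℚ ℂ} {hK : NumberField K} {hK' : NumberField K'}
    {P : ℙ ℂ (Fin (m + 1) → ℂ)} (h : fieldOf k P = K) (h' : fieldOf k P = K')
    {Q : ℙ K (Fin (m + 1) → K)} {Q' : ℙ K' (Fin (m + 1) → K')} (hQ : toC Q = P)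
    (hQ' : toC Q' = P) : height Q = height Q' := by
  have e : K = K' := h.symm.trans h'
  subst e
  have : hK = hK' := Subsingleton.elim _ _
  subst this
  rw [toC_inj (hQ.trans hQ'.symm)]

open Pool.Agent.W223.VD (FieldExp) in
/-- **One exceptional set for all arrangements.** -/
theorem universal (k : IntermediateField ℚ ℂ) [NumberField k] (hm : 1 ≤ m)
    (r n : ℕ) (hn : n = r * Module.finrank ℚ k) (hn2 : 2 ≤ n) (hr : 1 ≤ r) (hrm : r ≤ m + 1)
    {α : ℝ} (hα1 : 1 ≤ α) (hF : FieldExp n α) (hmα : 2 * α < m) :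
    ∃ E₀ : Set (ℙ ℂ (Fin (m + 1) → ℂ)), DensityZero (Full k m r) E₀ ∧
      ∀ (q : ℕ), m + 1 ≤ q → ∀ a : Fin q → Fin (m + 1) → k,
      (∀ I : Finset (Fin q), I.card = m + 1 → LinearIndependent k (fun i : I => a i)) →
      ∀ θ : ℝ, θ < q → ∃ C : ℝ, ∀ (K : IntermediateField ℚ ℂ) (_ : NumberField K) (h : k ≤ K)
        (Q : ℙ K (Fin (m + 1) → K)), fieldOf k (toC Q) = K →
        Module.finrank ℚ K = r * Module.finrank ℚ k → spanDim k (toC Q) = r → toC Q ∉ E₀ →
        (∀ i, value (liftTo h a i) Q ≠ 0) → ∀ S : Finset (FinitePlace K),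
          θ * height Q - C ≤ truncated S (liftTo h a) Q +
            (∑ v ∈ S, logNorm v) / Module.finrank ℚ K := by
  classical
  have hcount : Countable k := by
    exact (Module.finBasis ℚ k).equivFun.toEquiv.countable_iff.2 inferInstance
  let ι := (Σ q : ℕ, Fin q → Fin (m + 1) → k) × ℕ
  have hι : Nonempty ι := ⟨(⟨0, fun i => i.elim0⟩, 0)⟩
  obtain ⟨f, hf⟩ := exists_surjective_nat ι
  let good : (Σ q : ℕ, Fin q → Fin (m + 1) → k) → Prop := fun s => m + 1 ≤ s.1 ∧
    ∀ I : Finset (Fin s.1), I.card = m + 1 → LinearIndependent k (fun i : I => s.2 i)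
  let Es : ι → Set (ℙ ℂ (Fin (m + 1) → ℂ)) := fun s =>
    if good s.1 then E4 k m r s.1.1 s.1.2 ((s.1.1 : ℝ) - 1 / ((s.2 : ℝ) + 1)) else ∅
  have hEs : ∀ s : ι, DensityZero (Full k m r) (Es s) := by
    rintro ⟨⟨q, a⟩, j⟩
    by_cases hg : good ⟨q, a⟩
    · have e1 : Es (⟨q, a⟩, j) = E4 k m r q a ((q : ℝ) - 1 / ((j : ℝ) + 1)) := if_pos hg
      rw [e1]
      obtain ⟨hq, ha⟩ := hg
      have hq' : m + 1 ≤ q := hq
      have hq1 : (m : ℝ) + 1 ≤ q := by exact_mod_cast hq'
      have hm1 : (1 : ℝ) ≤ m := by exact_mod_cast hm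
      have hj : 0 < 1 / ((j : ℝ) + 1) := by positivity
      have hj1 : 1 / ((j : ℝ) + 1) ≤ 1 := by
        rw [div_le_one (by positivity)]
        have : (0 : ℝ) ≤ j := Nat.cast_nonneg _
        linarith
      set θ : ℝ := (q : ℝ) - 1 / ((j : ℝ) + 1) with hθ
      have hθ0 : 0 ≤ θ := by rw [hθ]; linarith
      have hθq : θ < q := by rw [hθ]; linarith
      have hx := exponent_lt hm hq' hmα hθq
      have hn0 : (0 : ℝ) < n := by exact_mod_cast (show 0 < n by omega)
      set δ : ℝ := (n : ℝ) * ((m : ℝ) + 1 - exponent m q α θ) / 2 with hδ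
      have hδ0 : 0 < δ := by
        rw [hδ]
        have : 0 < (m : ℝ) + 1 - exponent m q α θ := by linarith
        positivity
      obtain ⟨C, hC⟩ := upper k hm hq' a ha r n hn hn2 hα1 hF hmα.le θ 0 δ hθ0 hθq hδ0
      refine density_of_saving k hm r n hn hn2 hr hrm hα1 hF hmα.le _
        ((n : ℝ) * exponent m q α θ + δ) ?_ C fun T hT => ?_
      · rw [hδ]
        have : 0 < (n : ℝ) * ((m : ℝ) + 1 - exponent m q α θ) := mul_pos hn0 (by linarith)
        nlinarith
      · obtain ⟨h1, h2⟩ := hC (Real.exp T) (Real.one_le_exp hT)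
        have hsub : E4 k m r q a θ ∩ Full k m r T ⊆ Exceptional k a r θ 0 (Real.exp T) := by
          rintro P ⟨⟨hsp, K, hK, h, Q, hfo, hdeg, hQ, hv, S, hS⟩,
            -, K', hK', h', Q', hfo', -, hQ', hh'⟩
          refine ⟨hsp, K, hK, h, Q, hfo, hdeg, hQ, hv, ?_, S, by rw [add_zero]; exact hS⟩
          rw [Real.log_exp, unique_rep hfo hfo' hQ hQ']
          exact hh'
        have h3 : ((E4 k m r q a θ ∩ Full k m r T).ncard : ℝ) ≤
            ((Exceptional k a r θ 0 (Real.exp T)).ncard : ℝ) := by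
          exact_mod_cast Set.ncard_le_ncard hsub h1
        refine (h3.trans h2).trans (le_of_eq ?_)
        rw [← Real.exp_mul, mul_comm T]
    · have e1 : Es (⟨q, a⟩, j) = ∅ := if_neg hg
      rw [e1]
      intro ε hε
      refine ⟨0, fun T _ => ?_⟩
      rw [Set.empty_inter, Set.ncard_empty, Nat.cast_zero]
      positivity
  obtain ⟨C', hC'⟩ := full_upper k hm r n hn hn2 hα1 hF hmα.le 1 one_pos
  have hfin : ∀ T, (Full k m r T).Finite := fun T =>
    (hC' (max T 0) (le_max_right _ _)).1.subset (full_mono k m r (le_max_left _ _))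
  obtain ⟨E₀, hE₀, hall⟩ := diag (Full k m r) (full_mono k m r) hfin (fun i => Es (f i))
    fun i => hEs (f i)
  refine ⟨E₀, hE₀, fun q hq a ha θ hθ => ?_⟩
  obtain ⟨j, hj⟩ : ∃ j : ℕ, 1 / ((j : ℝ) + 1) < (q : ℝ) - θ := exists_nat_one_div_lt (by linarith)
  obtain ⟨i, hi⟩ := hf (⟨q, a⟩, j)
  obtain ⟨T, hT⟩ := hall i
  rw [hi] at hT
  have hg : good ⟨q, a⟩ := ⟨hq, ha⟩
  have e1 : Es (⟨q, a⟩, j) = E4 k m r q a ((q : ℝ) - 1 / ((j : ℝ) + 1)) := if_pos hg
  rw [e1] at hT
  refine ⟨|θ| * max T 0, fun K hK h Q hfo hdeg hsp hQE hv S => ?_⟩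
  have hh0 := height_nonneg Q
  by_cases hQ4 : toC Q ∈ E4 k m r q a ((q : ℝ) - 1 / ((j : ℝ) + 1))
  · have h1 : toC Q ∈ Full k m r T := by
      by_contra hn
      exact hQE (hT _ hQ4 hn)
    obtain ⟨-, K', hK', h', Q', hfo', -, hQ', hh'⟩ := h1
    have h2 : height Q ≤ T := by
      rw [unique_rep hfo hfo' rfl hQ']
      exact hh'
    have h3 := truncated_nonneg S (liftTo h a) Q
    have h4 : 0 ≤ (∑ v ∈ S, logNorm v) / (Module.finrank ℚ K : ℝ) :=
      div_nonneg (Finset.sum_nonneg fun v _ => logNorm_nonneg v) (n_pos K).le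
    have h5 : θ * height Q ≤ |θ| * max T 0 := by
      refine mul_le_mul (le_abs_self θ) (h2.trans (le_max_left _ _)) hh0 (abs_nonneg _)
    linarith
  · have h1 : ¬ (truncated S (liftTo h a) Q + (∑ v ∈ S, logNorm v) / Module.finrank ℚ K ≤
        ((q : ℝ) - 1 / ((j : ℝ) + 1)) * height Q) := by
      intro hS
      exact hQ4 ⟨hsp, K, hK, h, Q, hfo, hdeg, rfl, hv, S, hS⟩
    push Not at h1
    have h2 : θ * height Q ≤ ((q : ℝ) - 1 / ((j : ℝ) + 1)) * height Q :=
      mul_le_mul_of_nonneg_right (by linarith) hh0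
    have h3 : 0 ≤ |θ| * max T 0 := mul_nonneg (abs_nonneg _) (le_max_right _ _)
    linarith

end Pool.Agent.N752.SU
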